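import Pool.Agent.Helper33.DefNum.Array

/-!
# The base arrays
-/

namespace Pool.Agent.Helper33.DefNum

open Finset

theorem force {n k : ℕ} {G : Fin n → Fin n → Fin k} (hG : Proper G) (i j : Fin n) (v : Fin k)
    (h : ∀ c, c ≠ v → (∃ j', j' ≠ j ∧ G i j' = c) ∨ (∃ i', i' ≠ i ∧ G i' j = c)) : G i j = v := by
  by_contra hne
  rcases h _ hne with ⟨j', h1, h2⟩ | ⟨i', h1, h2⟩
  · exact h1 (hG.1 _ h2)
  · exact h1 (hG.2 j h2)

def base5 : Fin 5 → Fin 5 → Fin 8 :=
  ![![0, 1, 2, 3, 4], ![1, 5, 3, 4, 2], ![5, 0, 4, 2, 3], ![7, 6, 1, 5, 0], ![6, 7, 5, 0, 1]]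

def base5U : Finset (Fin 5 × Fin 5) := {(0, 0), (1, 0), (1, 1), (2, 1), (3, 2), (3, 3), (4, 3), (4, 4)}

theorem base5_forces : Forces base5Uᶜ base5 := by
  have hp : Proper base5 := by
    refine ⟨?_, ?_⟩
    · unfold Function.Injective; decide
    · unfold Function.Injective; decide
  refine ⟨hp, ?_⟩
  intro G hG hS
  have g01 : G 0 1 = 1 := hS (0, 1) (by decide)
  have g02 : G 0 2 = 2 := hS (0, 2) (by decide)
  have g03 : G 0 3 = 3 := hS (0, 3) (by decide)
  have g04 : G 0 4 = 4 := hS (0, 4) (by decide)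
  have g12 : G 1 2 = 3 := hS (1, 2) (by decide)
  have g13 : G 1 3 = 4 := hS (1, 3) (by decide)
  have g14 : G 1 4 = 2 := hS (1, 4) (by decide)
  have g20 : G 2 0 = 5 := hS (2, 0) (by decide)
  have g22 : G 2 2 = 4 := hS (2, 2) (by decide)
  have g23 : G 2 3 = 2 := hS (2, 3) (by decide)
  have g24 : G 2 4 = 3 := hS (2, 4) (by decide)
  have g30 : G 3 0 = 7 := hS (3, 0) (by decide)
  have g31 : G 3 1 = 6 := hS (3, 1) (by decide)
  have g34 : G 3 4 = 0 := hS (3, 4) (by decide)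
  have g40 : G 4 0 = 6 := hS (4, 0) (by decide)
  have g41 : G 4 1 = 7 := hS (4, 1) (by decide)
  have g42 : G 4 2 = 5 := hS (4, 2) (by decide)
  have g00 : G 0 0 = 0 := force hG 0 0 0 (fun c hc => match c, hc with
      | 0, hc => absurd rfl hc
      | 1, _ => Or.inl ⟨1, by decide, g01⟩
      | 2, _ => Or.inl ⟨2, by decide, g02⟩
      | 3, _ => Or.inl ⟨3, by decide, g03⟩
      | 4, _ => Or.inl ⟨4, by decide, g04⟩
      | 5, _ => Or.inr ⟨2, by decide, g20⟩
      | 6, _ => Or.inr ⟨4, by decide, g40⟩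
      | 7, _ => Or.inr ⟨3, by decide, g30⟩)
  have g10 : G 1 0 = 1 := force hG 1 0 1 (fun c hc => match c, hc with
      | 0, _ => Or.inr ⟨0, by decide, g00⟩
      | 1, hc => absurd rfl hc
      | 2, _ => Or.inl ⟨4, by decide, g14⟩
      | 3, _ => Or.inl ⟨2, by decide, g12⟩
      | 4, _ => Or.inl ⟨3, by decide, g13⟩
      | 5, _ => Or.inr ⟨2, by decide, g20⟩
      | 6, _ => Or.inr ⟨4, by decide, g40⟩
      | 7, _ => Or.inr ⟨3, by decide, g30⟩)
  have g21 : G 2 1 = 0 := force hG 2 1 0 (fun c hc => match c, hc with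
      | 0, hc => absurd rfl hc
      | 1, _ => Or.inr ⟨0, by decide, g01⟩
      | 2, _ => Or.inl ⟨3, by decide, g23⟩
      | 3, _ => Or.inl ⟨4, by decide, g24⟩
      | 4, _ => Or.inl ⟨2, by decide, g22⟩
      | 5, _ => Or.inl ⟨0, by decide, g20⟩
      | 6, _ => Or.inr ⟨3, by decide, g31⟩
      | 7, _ => Or.inr ⟨4, by decide, g41⟩)
  have g11 : G 1 1 = 5 := force hG 1 1 5 (fun c hc => match c, hc with
      | 0, _ => Or.inr ⟨2, by decide, g21⟩
      | 1, _ => Or.inl ⟨0, by decide, g10⟩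
      | 2, _ => Or.inl ⟨4, by decide, g14⟩
      | 3, _ => Or.inl ⟨2, by decide, g12⟩
      | 4, _ => Or.inl ⟨3, by decide, g13⟩
      | 5, hc => absurd rfl hc
      | 6, _ => Or.inr ⟨3, by decide, g31⟩
      | 7, _ => Or.inr ⟨4, by decide, g41⟩)
  have g32 : G 3 2 = 1 := force hG 3 2 1 (fun c hc => match c, hc with
      | 0, _ => Or.inl ⟨4, by decide, g34⟩
      | 1, hc => absurd rfl hc
      | 2, _ => Or.inr ⟨0, by decide, g02⟩
      | 3, _ => Or.inr ⟨1, by decide, g12⟩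
      | 4, _ => Or.inr ⟨2, by decide, g22⟩
      | 5, _ => Or.inr ⟨4, by decide, g42⟩
      | 6, _ => Or.inl ⟨1, by decide, g31⟩
      | 7, _ => Or.inl ⟨0, by decide, g30⟩)
  have g33 : G 3 3 = 5 := force hG 3 3 5 (fun c hc => match c, hc with
      | 0, _ => Or.inl ⟨4, by decide, g34⟩
      | 1, _ => Or.inl ⟨2, by decide, g32⟩
      | 2, _ => Or.inr ⟨2, by decide, g23⟩
      | 3, _ => Or.inr ⟨0, by decide, g03⟩
      | 4, _ => Or.inr ⟨1, by decide, g13⟩
      | 5, hc => absurd rfl hc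
      | 6, _ => Or.inl ⟨1, by decide, g31⟩
      | 7, _ => Or.inl ⟨0, by decide, g30⟩)
  have g44 : G 4 4 = 1 := force hG 4 4 1 (fun c hc => match c, hc with
      | 0, _ => Or.inr ⟨3, by decide, g34⟩
      | 1, hc => absurd rfl hc
      | 2, _ => Or.inr ⟨1, by decide, g14⟩
      | 3, _ => Or.inr ⟨2, by decide, g24⟩
      | 4, _ => Or.inr ⟨0, by decide, g04⟩
      | 5, _ => Or.inl ⟨2, by decide, g42⟩
      | 6, _ => Or.inl ⟨0, by decide, g40⟩
      | 7, _ => Or.inl ⟨1, by decide, g41⟩)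
  have g43 : G 4 3 = 0 := force hG 4 3 0 (fun c hc => match c, hc with
      | 0, hc => absurd rfl hc
      | 1, _ => Or.inl ⟨4, by decide, g44⟩
      | 2, _ => Or.inr ⟨2, by decide, g23⟩
      | 3, _ => Or.inr ⟨0, by decide, g03⟩
      | 4, _ => Or.inr ⟨1, by decide, g13⟩
      | 5, _ => Or.inl ⟨2, by decide, g42⟩
      | 6, _ => Or.inl ⟨0, by decide, g40⟩
      | 7, _ => Or.inl ⟨1, by decide, g41⟩)
  funext i j
  fin_cases i <;> fin_cases j
  · exact g00
  · exact g01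
  · exact g02
  · exact g03
  · exact g04
  · exact g10
  · exact g11
  · exact g12
  · exact g13
  · exact g14
  · exact g20
  · exact g21
  · exact g22
  · exact g23
  · exact g24
  · exact g30
  · exact g31
  · exact g32
  · exact g33
  · exact g34
  · exact g40
  · exact g41
  · exact g42
  · exact g43
  · exact g44

theorem base5_bound : definingNumber (grid 5) 8 ≤ 17 := by
  have := definingNumber_le (n := 5) (k := 8) (Fintype.card_fin 5) (Fintype.card_fin 5)
    (Fintype.card_fin 8) base5Uᶜ base5 base5_forces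
  have h : base5Uᶜ.card = 17 := by decide
  omega

end Pool.Agent.Helper33.DefNum
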