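import Pool.Agent.Helper33.DefNum.Array

/-!
# The cyclic Latin square
-/

namespace Pool.Agent.Helper33.DefNum

open Finset

section
variable {s : ℕ}

theorem latin_unique (t : ℕ) (ht : t ≤ s) (G : Fin s → Fin s → Fin s) (hG : Proper G)
    (h1 : ∀ i j : Fin s, i.val + j.val < t → (G i j).val = i.val + j.val)
    (h2 : ∀ i j : Fin s, s + t ≤ i.val + j.val → (G i j).val = i.val + j.val - s) :
    ∀ i j : Fin s, (G i j).val = (i.val + j.val) % s := by
  have hcol : ∀ (j v : Fin s), ∃ i, G i j = v := fun j =>
    Finite.injective_iff_surjective.1 (hG.2 j)
  have hrow : ∀ i j j' : Fin s, (G i j).val = (G i j').val → j.val = j'.val := by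
    intro i j j' h
    rw [hG.1 i (Fin.ext h)]
  -- downwards
  have down : ∀ m, m ≤ t → ∀ i j : Fin s, s + (t - m) ≤ i.val + j.val →
      (G i j).val = i.val + j.val - s := by
    intro m
    induction m with
    | zero => intro _ i j h; exact h2 i j (by omega)
    | succ m ih =>
      intro hm
      have ih' := ih (by omega)
      set w := t - (m + 1) with hw
      have hwm : t - m = w + 1 := by omega
      rw [hwm] at ih'
      -- the antidiagonal s + w
      have key : ∀ N, ∀ i j : Fin s, i.val = N → i.val + j.val = s + w → (G i j).val = w := by
        intro N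
        induction N using Nat.strong_induction_on with
        | _ N IH =>
          intro i j hi hij
          have hi' := i.2
          have hj' := j.2
          obtain ⟨i0, hi0⟩ := hcol j ⟨w, by omega⟩
          have hi0v : (G i0 j).val = w := by rw [hi0]
          have hi0' := i0.2
          rcases le_or_gt i0.val w with c | c
          · have e := h1 i0 ⟨w - i0.val, by omega⟩ (by simp only; omega)
            have e2 := hrow i0 j ⟨w - i0.val, by omega⟩ (by rw [hi0v, e]; simp only; omega)
            simp only at e2
            omega
          · rcases lt_trichotomy i0.val i.val with c2 | c2 | c2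
            · have e := IH i0.val (by omega) i0 ⟨s + w - i0.val, by omega⟩ rfl
                (by simp only; omega)
              have e2 := hrow i0 j ⟨s + w - i0.val, by omega⟩ (by rw [hi0v, e])
              simp only at e2
              omega
            · have : i0 = i := Fin.ext c2
              rw [← this]; exact hi0v
            · have e := ih' i0 j (by omega)
              omega
      intro i j h
      rcases Nat.lt_or_ge (s + w) (i.val + j.val) with c | c
      · exact ih' i j (by omega)
      · rw [key _ i j rfl (by omega)]
        omega
  have up : ∀ m, t + m ≤ s → ∀ i j : Fin s, i.val + j.val < t + m →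
      (G i j).val = i.val + j.val := by
    intro m
    induction m with
    | zero => intro _ i j h; exact h1 i j (by omega)
    | succ m ih =>
      intro hm
      have ih' := ih (by omega)
      set w := t + m with hw
      have key : ∀ N, ∀ i j : Fin s, j.val = N → i.val + j.val = w → (G i j).val = w := by
        intro N
        induction N using Nat.strong_induction_on with
        | _ N IH =>
          intro i j hj hij
          have hi' := i.2
          have hj' := j.2
          obtain ⟨i0, hi0⟩ := hcol j ⟨w, by omega⟩
          have hi0v : (G i0 j).val = w := by rw [hi0]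
          have hi0' := i0.2
          rcases le_or_gt i0.val w with c | c
          · rcases lt_trichotomy i0.val i.val with c2 | c2 | c2
            · have e := ih' i0 j (by omega)
              omega
            · have : i0 = i := Fin.ext c2
              rw [← this]; exact hi0v
            · have e := IH (w - i0.val) (by omega) i0 ⟨w - i0.val, by omega⟩ rfl
                (by simp only; omega)
              have e2 := hrow i0 j ⟨w - i0.val, by omega⟩ (by rw [hi0v, e])
              simp only at e2
              omega
          · have e := h2 i0 ⟨s + w - i0.val, by omega⟩ (by simp only; omega)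
            have e2 := hrow i0 j ⟨s + w - i0.val, by omega⟩ (by rw [hi0v, e]; simp only; omega)
            simp only at e2
            omega
      intro i j h
      rcases Nat.lt_or_ge (i.val + j.val) w with c | c
      · exact ih' i j c
      · rw [key _ i j rfl (by omega)]
        omega
  intro i j
  have hi := i.2
  have hj := j.2
  rcases Nat.lt_or_ge (i.val + j.val) s with c | c
  · rw [Nat.mod_eq_of_lt c]
    exact up (s - t) (by omega) i j (by omega)
  · rw [Nat.mod_eq_sub_mod c, Nat.mod_eq_of_lt (by omega)]
    exact down t le_rfl i j (by omega)

theorem sum_triangle (s : ℕ) : ∀ t, 2 * ∑ i ∈ Finset.range s, (t - i) ≤ t * (t + 1) := by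
  induction s with
  | zero => intro t; simp
  | succ s ih =>
    intro t
    rw [Finset.sum_range_succ']
    rcases t with _ | t
    · simp
    · have h : ∑ k ∈ Finset.range s, (t + 1 - (k + 1)) = ∑ k ∈ Finset.range s, (t - k) :=
        Finset.sum_congr rfl fun k _ => by omega
      rw [h]
      have := ih t
      have e : (t + 1) * (t + 1 + 1) = t * (t + 1) + 2 * (t + 1) := by ring
      rw [e]
      omega

theorem card_triangle (s t : ℕ) :
    2 * (Finset.univ.filter fun x : Fin s × Fin s => x.1.val + x.2.val < t).card ≤ t * (t + 1) := by
  refine le_trans ?_ (sum_triangle s t)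
  apply Nat.mul_le_mul_left
  rw [Finset.card_filter, Fintype.sum_prod_type, Finset.sum_range]
  apply Finset.sum_le_sum
  intro i _
  rw [← Finset.card_filter]
  have h := Finset.card_le_card_of_injOn (s := Finset.univ.filter fun y : Fin s => i.val + y.val < t)
    (t := Finset.range (t - i.val)) (fun j : Fin s => j.val) (by
      intro j hj
      have hj := (Finset.mem_filter.1 (Finset.mem_coe.1 hj)).2
      refine Finset.mem_coe.2 (Finset.mem_range.2 ?_)
      show j.val < t - i.val
      omega) (by
      intro j _ j' _ h
      exact Fin.ext h)
  rw [Finset.card_range] at h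
  exact h

theorem card_triangle' (s t : ℕ) (_ht : t < s) :
    2 * (Finset.univ.filter fun x : Fin s × Fin s => s + t ≤ x.1.val + x.2.val).card ≤
      (s - t - 1) * (s - t) := by
  have h1 := card_triangle s (s - t - 1)
  have e : s - t - 1 + 1 = s - t := by omega
  rw [e] at h1
  refine le_trans ?_ h1
  apply Nat.mul_le_mul_left
  apply Finset.card_le_card_of_injOn (fun x : Fin s × Fin s => (x.1.rev, x.2.rev))
  · intro x hx
    have hx := (Finset.mem_filter.1 (Finset.mem_coe.1 hx)).2
    have h3 := x.1.2
    have h4 := x.2.2
    refine Finset.mem_coe.2 (Finset.mem_filter.2 ⟨Finset.mem_univ _, ?_⟩)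
    simp only [Fin.val_rev]
    omega
  · intro x _ y _ h
    simp only [Prod.mk.injEq] at h
    exact Prod.ext (Fin.rev_injective h.1) (Fin.rev_injective h.2)

/-- `d(K_s × K_s, s) ≤ ⌊s²/4⌋`. -/
theorem latin_bound (s : ℕ) (hs : 0 < s) : definingNumber (grid s) s ≤ s ^ 2 / 4 := by
  set t := s / 2 with ht
  let F : Fin s → Fin s → Fin s := fun i j => ⟨(i.val + j.val) % s, Nat.mod_lt _ hs⟩
  have hF : Proper F := by
    constructor
    · intro i j j' h
      have h' : (i.val + j.val) % s = (i.val + j'.val) % s := congrArg Fin.val h
      have : j.val ≡ j'.val [MOD s] := Nat.ModEq.add_left_cancel' i.val h'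
      exact Fin.ext (Nat.ModEq.eq_of_lt_of_lt this j.2 j'.2)
    · intro j i i' h
      have h' : (i.val + j.val) % s = (i'.val + j.val) % s := congrArg Fin.val h
      have : i.val ≡ i'.val [MOD s] := Nat.ModEq.add_right_cancel' j.val h'
      exact Fin.ext (Nat.ModEq.eq_of_lt_of_lt this i.2 i'.2)
  let A : Finset (Fin s × Fin s) := Finset.univ.filter fun x => x.1.val + x.2.val < t
  let B : Finset (Fin s × Fin s) := Finset.univ.filter fun x => s + t ≤ x.1.val + x.2.val
  have hforce : Forces (A ∪ B) F := by
    refine ⟨hF, ?_⟩
    intro G hG hS
    have := latin_unique t (by omega) G hG (by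
      intro i j h
      have h2 := hS (i, j) (Finset.mem_union_left _ (Finset.mem_filter.2 ⟨Finset.mem_univ _, h⟩))
      have h3 : (G i j).val = (i.val + j.val) % s := congrArg Fin.val h2
      rw [h3, Nat.mod_eq_of_lt]
      omega) (by
      intro i j h
      have h2 := hS (i, j) (Finset.mem_union_right _ (Finset.mem_filter.2 ⟨Finset.mem_univ _, h⟩))
      have h3 : (G i j).val = (i.val + j.val) % s := congrArg Fin.val h2
      have hi := i.2
      have hj := j.2
      rw [h3, Nat.mod_eq_sub_mod (by omega), Nat.mod_eq_of_lt (by omega)])
    funext i j
    exact Fin.ext (this i j)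
  have h1 := definingNumber_le (n := s) (k := s) (Fintype.card_fin s) (Fintype.card_fin s)
    (Fintype.card_fin s) (A ∪ B) F hforce
  have h2 := Finset.card_union_le A B
  have h3 : 2 * A.card ≤ t * (t + 1) := card_triangle s t
  have h4 : 2 * B.card ≤ (s - t - 1) * (s - t) := card_triangle' s t (by omega)
  refine h1.trans (h2.trans ?_)
  rw [Nat.le_div_iff_mul_le (by norm_num)]
  generalize A.card = x at h3
  generalize B.card = y at h4
  rcases Nat.even_or_odd' s with ⟨c, hc | hc⟩
  · have htc : t = c := by omega
    rw [htc] at h3 h4
    have e1 : s - c = c := by omega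
    have e2 : s - c - 1 = c - 1 := by omega
    rw [e1] at h4
    obtain ⟨c', rfl⟩ : ∃ c', c = c' + 1 := ⟨c - 1, by omega⟩
    simp only [Nat.add_sub_cancel] at h4
    rw [hc]
    nlinarith
  · have htc : t = c := by omega
    rw [htc] at h3 h4
    have e1 : s - c = c + 1 := by omega
    rw [e1, Nat.add_sub_cancel] at h4
    rw [hc]
    nlinarith

end

end Pool.Agent.Helper33.DefNum
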