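import Mathlib

/-!
# Counting: no three cells in a line, no path with five cells
-/

namespace Pool.Agent.Helper33.DefNum

open Finset

section
variable {n : ℕ} (U : Finset (Fin n × Fin n))

/-- `x` has a mate in its row -/
def hasR (x : Fin n × Fin n) : Prop := ∃ y ∈ U, y.1 = x.1 ∧ y ≠ x

def hasC (x : Fin n × Fin n) : Prop := ∃ y ∈ U, y.2 = x.2 ∧ y ≠ x

open Classical in
theorem sum_line_le (T : Finset (Fin n × Fin n)) (P : Fin n × Fin n → Prop)
    (hP : ∀ x ∈ T, ¬ P x → ∀ y ∈ T, y = x) (hT : T.card ≤ 2) :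
    ∑ x ∈ T, (if P x then 1 else 2) ≤ 2 := by
  by_cases h : ∃ x ∈ T, ¬ P x
  · obtain ⟨x, hx, hPx⟩ := h
    have : T = {x} := by
      ext y
      simp only [Finset.mem_singleton]
      constructor
      · intro hy; exact hP x hx hPx y hy
      · rintro rfl; exact hx
    rw [this, Finset.sum_singleton, if_neg hPx]
  · push Not at h
    rw [Finset.sum_congr rfl (g := fun _ => 1) (fun x hx => if_pos (h x hx))]
    simpa using hT

open Classical in
theorem count_bound
    (hrow : ∀ i j1 j2 j3, (i, j1) ∈ U → (i, j2) ∈ U → (i, j3) ∈ U → j1 ≠ j2 → j1 ≠ j3 → j2 ≠ j3 →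
      False)
    (hcol : ∀ j i1 i2 i3, (i1, j) ∈ U → (i2, j) ∈ U → (i3, j) ∈ U → i1 ≠ i2 → i1 ≠ i3 → i2 ≠ i3 →
      False)
    (hpath : ∀ i0 i1 i2 j0 j1 j2, (i0, j0) ∈ U → (i1, j0) ∈ U → (i1, j1) ∈ U → (i2, j1) ∈ U →
      (i2, j2) ∈ U → i0 ≠ i1 → i1 ≠ i2 → j0 ≠ j1 → j1 ≠ j2 → False) :
    5 * U.card ≤ 8 * n := by
  have hrcard : ∀ i, (U.filter fun y => y.1 = i).card ≤ 2 := by
    intro i
    by_contra hcon
    push Not at hcon
    obtain ⟨a, b, c, ha, hb, hc, hab, hac, hbc⟩ := Finset.two_lt_card_iff.1 hcon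
    simp only [Finset.mem_filter] at ha hb hc
    obtain ⟨a1, a2⟩ := a
    obtain ⟨b1, b2⟩ := b
    obtain ⟨c1, c2⟩ := c
    obtain ⟨ha, rfl⟩ := ha
    obtain ⟨hb, rfl⟩ := hb
    obtain ⟨hc, h⟩ := hc
    simp only at h
    subst h
    exact hrow c1 a2 b2 c2 ha hb hc (fun e => hab (by rw [e])) (fun e => hac (by rw [e]))
      (fun e => hbc (by rw [e]))
  have hccard : ∀ i, (U.filter fun y => y.2 = i).card ≤ 2 := by
    intro i
    by_contra hcon
    push Not at hcon
    obtain ⟨a, b, c, ha, hb, hc, hab, hac, hbc⟩ := Finset.two_lt_card_iff.1 hcon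
    simp only [Finset.mem_filter] at ha hb hc
    obtain ⟨a1, a2⟩ := a
    obtain ⟨b1, b2⟩ := b
    obtain ⟨c1, c2⟩ := c
    obtain ⟨ha, rfl⟩ := ha
    obtain ⟨hb, rfl⟩ := hb
    obtain ⟨hc, h⟩ := hc
    simp only at h
    subst h
    exact hcol c2 a1 b1 c1 ha hb hc (fun e => hab (by rw [e])) (fun e => hac (by rw [e]))
      (fun e => hbc (by rw [e]))
  have sR : ∑ x ∈ U, (if hasR U x then 1 else 2) ≤ 2 * n := by
    rw [← Finset.sum_fiberwise_of_maps_to (s := U) (t := Finset.univ) (g := fun x => x.1)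
      (fun _ _ => Finset.mem_univ _)]
    calc _ ≤ ∑ _i : Fin n, 2 := Finset.sum_le_sum fun i _ => ?_
      _ = 2 * n := by simp [mul_comm]
    apply sum_line_le _ _ _ (hrcard i)
    intro x hx hPx y hy
    simp only [Finset.mem_filter] at hx hy
    by_contra hne
    exact hPx ⟨y, hy.1, hy.2.trans hx.2.symm, hne⟩
  have sC : ∑ x ∈ U, (if hasC U x then 1 else 2) ≤ 2 * n := by
    rw [← Finset.sum_fiberwise_of_maps_to (s := U) (t := Finset.univ) (g := fun x => x.2)
      (fun _ _ => Finset.mem_univ _)]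
    calc _ ≤ ∑ _i : Fin n, 2 := Finset.sum_le_sum fun i _ => ?_
      _ = 2 * n := by simp [mul_comm]
    apply sum_line_le _ _ _ (hccard i)
    intro x hx hPx y hy
    simp only [Finset.mem_filter] at hx hy
    by_contra hne
    exact hPx ⟨y, hy.1, hy.2.trans hx.2.symm, hne⟩
  -- interior cells
  set I := U.filter fun x => hasR U x ∧ hasC U x with hI
  set E := U.filter fun x => (hasR U x ∧ ¬ hasC U x) ∨ (¬ hasR U x ∧ hasC U x) with hE
  have hIE : I.card ≤ E.card := by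
    have hex : ∀ x ∈ I, ∃ y ∈ E, y ≠ x ∧ (y.1 = x.1 ∨ y.2 = x.2) := by
      intro x hx
      simp only [hI, Finset.mem_filter] at hx
      obtain ⟨hxU, ⟨y, hyU, hy1, hyx⟩, ⟨z, hzU, hz2, hzx⟩⟩ := hx
      by_contra hcon
      push Not at hcon
      have hy : hasC U y := by
        by_contra h
        have : y ∈ E := by
          simp only [hE, Finset.mem_filter]
          exact ⟨hyU, Or.inl ⟨⟨x, hxU, hy1.symm, hyx.symm⟩, h⟩⟩
        exact (hcon y this hyx).1 hy1
      have hz : hasR U z := by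
        by_contra h
        have : z ∈ E := by
          simp only [hE, Finset.mem_filter]
          exact ⟨hzU, Or.inr ⟨h, ⟨x, hxU, hz2.symm, hzx.symm⟩⟩⟩
        exact (hcon z this hzx).2 hz2
      obtain ⟨y', hy'U, hy'2, hy'y⟩ := hy
      obtain ⟨z', hz'U, hz'1, hz'z⟩ := hz
      obtain ⟨x1, x2⟩ := x
      obtain ⟨y1, y2⟩ := y
      obtain ⟨z1, z2⟩ := z
      obtain ⟨y1', y2'⟩ := y'
      obtain ⟨z1', z2'⟩ := z'
      simp only at hy1 hz2 hy'2 hz'1
      subst hy1 hz2 hy'2 hz'1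
      exact hpath y1' y1 z1' y2' z2 z2' hy'U hyU hxU hzU hz'U
        (fun e => hy'y (by rw [e])) (fun e => hzx (by rw [e])) (fun e => hyx (by rw [e]))
        (fun e => hz'z (by rw [e]))
    choose! f hf1 hf2 hf3 using hex
    apply Finset.card_le_card_of_injOn f hf1
    intro x hx x' hx' hff
    have hx := Finset.mem_coe.1 hx
    have hx' := Finset.mem_coe.1 hx'
    have a1 := hf1 x hx
    have a2 := hf2 x hx
    have a3 := hf3 x hx
    have b2 := hf2 x' hx'
    have b3 := hf3 x' hx'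
    rw [← hff] at b2 b3
    simp only [hI, Finset.mem_filter] at hx hx'
    simp only [hE, Finset.mem_filter] at a1
    by_contra hne
    generalize f x = y at a1 a2 a3 b2 b3
    have hasR1 : ∀ w ∈ U, y ≠ w → y.1 = w.1 → hasR U y := fun w hw h1 h2 => ⟨w, hw, h2.symm, h1.symm⟩
    have hasC1 : ∀ w ∈ U, y ≠ w → y.2 = w.2 → hasC U y := fun w hw h1 h2 => ⟨w, hw, h2.symm, h1.symm⟩
    obtain ⟨hyU, a1⟩ := a1
    rcases a1 with ⟨p, q⟩ | ⟨p, q⟩
    · have c1 := a3.resolve_right (fun e => q (hasC1 x hx.1 a2 e))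
      have c2 := b3.resolve_right (fun e => q (hasC1 x' hx'.1 b2 e))
      obtain ⟨x1, x2⟩ := x
      obtain ⟨x1', x2'⟩ := x'
      obtain ⟨y1, y2⟩ := y
      simp only at c1 c2
      subst c1 c2
      exact hrow y1 y2 x2 x2' hyU hx.1 hx'.1 (fun e => a2 (by rw [e])) (fun e => b2 (by rw [e]))
        (fun e => hne (by rw [e]))
    · have c1 := a3.resolve_left (fun e => p (hasR1 x hx.1 a2 e))
      have c2 := b3.resolve_left (fun e => p (hasR1 x' hx'.1 b2 e))
      obtain ⟨x1, x2⟩ := x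
      obtain ⟨x1', x2'⟩ := x'
      obtain ⟨y1, y2⟩ := y
      simp only at c1 c2
      subst c1 c2
      exact hcol y2 y1 x1 x1' hyU hx.1 hx'.1 (fun e => a2 (by rw [e])) (fun e => b2 (by rw [e]))
        (fun e => hne (by rw [e]))
  -- total
  have hIc : I.card = ∑ x ∈ U, (if hasR U x ∧ hasC U x then 1 else 0) := Finset.card_filter _ _
  have hEc : E.card = ∑ x ∈ U, (if (hasR U x ∧ ¬ hasC U x) ∨ (¬ hasR U x ∧ hasC U x) then 1 else 0) :=
    Finset.card_filter _ _
  have hUc : U.card = ∑ x ∈ U, 1 := Finset.card_eq_sum_ones _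
  have key : 5 * U.card + E.card ≤ 2 * (∑ x ∈ U, (if hasR U x then 1 else 2)
      + ∑ x ∈ U, (if hasC U x then 1 else 2)) + I.card := by
    rw [hIc, hEc, hUc, ← Finset.sum_add_distrib, Finset.mul_sum, Finset.mul_sum,
      ← Finset.sum_add_distrib, ← Finset.sum_add_distrib]
    apply Finset.sum_le_sum
    intro x _
    by_cases h1 : hasR U x <;> by_cases h2 : hasC U x <;> simp [h1, h2]
  omega

end

end Pool.Agent.Helper33.DefNum
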