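import Pool.Agent.Helper33.DefNum.Local
import Pool.Agent.Helper33.DefNum.Count

/-!
# The lower bound for `k = 2n - 2`
-/

namespace Pool.Agent.Helper33.DefNum

open Finset

theorem tight_of_forces {n k : ℕ} (hk : k + 2 = 2 * n) (S : Finset (Fin n × Fin n))
    (F : Fin n → Fin n → Fin k) (hF : Forces S F) : Tight (fun i j => (i, j) ∉ S) F := by
  have uniq : ∀ G : Fin n → Fin n → Fin k, (∀ i j j', G i j = G i j' → j = j') →
    (∀ j i i', G i j = G i' j → i = i') → (∀ i j, ¬ (i, j) ∉ S → G i j = F i j) →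
    ∀ i j, G i j = F i j := by
    intro G h1 h2 h3 i j
    have := hF.2 G ⟨fun i => fun a b => h1 i a b, fun j => fun a b => h2 j a b⟩ (by
      intro x hx
      exact h3 x.1 x.2 (not_not.2 hx))
    rw [this]
  have hr : ∀ i j j', F i j = F i j' → j = j' := fun i j j' e => hF.1.1 i e
  have hc : ∀ j i i', F i j = F i' j → i = i' := fun j i i' e => hF.1.2 j e
  have cover : ∀ i j, (i, j) ∉ S → ∀ a, Rw F i a ∨ Cl F j a := by
    intro i j hij a
    by_contra hcon
    push Not at hcon
    obtain ⟨c1, c2⟩ := hcon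
    have c1' : ∀ b, F i b ≠ a := fun b h => c1 ⟨b, h⟩
    have c2' : ∀ b, F b j ≠ a := fun b h => c2 ⟨b, h⟩
    have := uniq (fun x y => if x = i ∧ y = j then a else F x y) (by intro x y y'; grind)
      (by intro y x x'; grind) (by intro x y; grind) i j
    rw [if_pos ⟨rfl, rfl⟩] at this
    exact c1' j this.symm
  refine ⟨hr, hc, uniq, ?_, cover⟩
  intro i j hij a b ha1 ha2 hb1 hb2 hna hnb
  by_contra hab
  set A : Finset (Fin k) := Finset.univ.image (F i) with hA
  set B : Finset (Fin k) := Finset.univ.image (fun i' => F i' j) with hB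
  have hAc : A.card = n := by
    rw [hA, Finset.card_image_of_injective _ (hF.1.1 i), Finset.card_univ, Fintype.card_fin]
  have hBc : B.card = n := by
    rw [hB, Finset.card_image_of_injective _ (hF.1.2 j), Finset.card_univ, Fintype.card_fin]
  have hAmem : ∀ a, a ∈ A ↔ Rw F i a := by
    intro a; rw [hA]; simp [Rw]
  have hBmem : ∀ a, a ∈ B ↔ Cl F j a := by
    intro a; rw [hB]; simp [Cl]
  have hAB : A ∪ B = Finset.univ := by
    ext x
    simp only [Finset.mem_union, hAmem, hBmem, Finset.mem_univ, iff_true]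
    exact cover i j hij x
  have h1 := Finset.card_union_add_card_inter A B
  rw [hAB, Finset.card_univ, Fintype.card_fin, hAc, hBc] at h1
  have h2 : ({F i j, a, b} : Finset (Fin k)) ⊆ A ∩ B := by
    intro x hx
    simp only [Finset.mem_insert, Finset.mem_singleton] at hx
    rw [Finset.mem_inter, hAmem, hBmem]
    rcases hx with rfl | rfl | rfl
    · exact ⟨⟨j, rfl⟩, ⟨i, rfl⟩⟩
    · exact ⟨ha1, ha2⟩
    · exact ⟨hb1, hb2⟩
  have h3 := Finset.card_le_card h2
  rw [Finset.card_insert_of_notMem, Finset.card_insert_of_notMem, Finset.card_singleton] at h3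
  · omega
  · simpa using hab
  · simp only [Finset.mem_insert, Finset.mem_singleton, not_or]
    exact ⟨hna.symm, hnb.symm⟩

/-- At most `8n/5` cells are undefined. -/
theorem card_undefined_tight {n k : ℕ} (hk : k + 2 = 2 * n) (S : Finset (Fin n × Fin n))
    (F : Fin n → Fin n → Fin k) (hF : Forces S F) : 5 * Sᶜ.card ≤ 8 * n := by
  have h := tight_of_forces hk S F hF
  have ht := h.transpose
  apply count_bound
  · intro i j1 j2 j3 h1 h2 h3 h12 h13 h23
    exact h.g1 (Finset.mem_compl.1 h1) (Finset.mem_compl.1 h2) (Finset.mem_compl.1 h3) h12 h13 h23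
  · intro j i1 i2 i3 h1 h2 h3 h12 h13 h23
    exact ht.g1 (i := j) (Finset.mem_compl.1 h1) (Finset.mem_compl.1 h2) (Finset.mem_compl.1 h3)
      h12 h13 h23
  · intro i0 i1 i2 j0 j1 j2 h1 h2 h3 h4 h5 a b c d
    exact h.noPath (Finset.mem_compl.1 h1) (Finset.mem_compl.1 h2) (Finset.mem_compl.1 h3)
      (Finset.mem_compl.1 h4) (Finset.mem_compl.1 h5) a b c d

theorem tight_lower {n : ℕ} (hn : 2 ≤ n) :
    5 * n ^ 2 ≤ 5 * definingNumber (grid n) (2 * n - 2) + 8 * n := by
  obtain ⟨S, F, hF, hS⟩ := exists_forces (n := n) (k := 2 * n - 2) (by omega)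
  rw [← hS]
  have h1 := card_undefined_tight (by omega) S F hF
  rw [Finset.card_compl, Fintype.card_prod, Fintype.card_fin] at h1
  have h2 : S.card ≤ n * n := by
    have := Finset.card_le_univ S
    simpa [Fintype.card_prod] using this
  rw [sq]
  omega

end Pool.Agent.Helper33.DefNum
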