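import Pool.Agent.Helper33.DefNum.Match

/-!
# Upper bounds from the block construction
-/

namespace Pool.Agent.Helper33.DefNum

open Finset

/-- Transport of a forcing pair. -/
theorem exists_forces_transport {n k : ℕ} (h : n ≤ k) (R C K : Type) [Fintype R] [Fintype C]
    [Fintype K] (hR : Fintype.card R = n) (hC : Fintype.card C = n) (hK : Fintype.card K = k) :
    ∃ (S : Finset (R × C)) (F : R → C → K), Forces S F ∧ S.card = definingNumber (grid n) k := by
  classical
  obtain ⟨S, F, hF, hS⟩ := exists_forces h
  let eR : R ≃ Fin n := Fintype.equivFinOfCardEq hR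
  let eC : C ≃ Fin n := Fintype.equivFinOfCardEq hC
  let eK : K ≃ Fin k := Fintype.equivFinOfCardEq hK
  refine ⟨S.map (Equiv.prodCongr eR eC).symm.toEmbedding, fun r c => eK.symm (F (eR r) (eC c)),
    ⟨⟨?_, ?_⟩, ?_⟩, ?_⟩
  · intro r c c' h
    exact eC.injective (hF.1.1 _ (eK.symm.injective h))
  · intro c r r' h
    exact eR.injective (hF.1.2 _ (eK.symm.injective h))
  · intro G hG hGS
    have h1 := hF.2 (fun i j => eK (G (eR.symm i) (eC.symm j))) ⟨?_, ?_⟩ ?_
    · funext r c
      have h2 := congrFun (congrFun h1 (eR r)) (eC c)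
      simp only [Equiv.symm_apply_apply] at h2
      rw [← h2, Equiv.symm_apply_apply]
    · intro i j j' h
      exact eC.symm.injective (hG.1 _ (eK.injective h))
    · intro j i i' h
      exact eR.symm.injective (hG.2 _ (eK.injective h))
    · intro x hx
      have h3 := hGS (eR.symm x.1, eC.symm x.2) (by
        simp only [Finset.mem_map_equiv]
        simpa using hx)
      simp only [Equiv.apply_symm_apply] at h3
      rw [h3, Equiv.apply_symm_apply]
  · rw [Finset.card_map, hS]

/-- Block data without border. -/
noncomputable def data0 (P a : ℕ) [NeZero P] [NeZero a] (hP : P % 2 = 1) :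
    BlockData (Option (ZMod P)) (ZMod P) (ZMod a) 0 where
  card := by simp
  φ := phi
  φsymm := phi_symm
  φinj := phi_inj hP
  o := orient
  oanti := orient_anti
  L := fun q r => q - r
  Lrow := fun q r r' h => by simpa using h
  Lcol := fun r q q' h => by simpa using h
  τ := fun l => l.elim0
  τinv := fun l => l.elim0
  τne := fun l => l.elim0
  τrainbow := fun l => l.elim0
  ρ := fun l => l.elim0
  ρL := fun l => l.elim0
  disj := fun l => l.elim0

/-- The product inequality. -/
theorem product_bound {a s m : ℕ} (hs : s ≤ a) (hm : m % 2 = 0) (hm0 : 0 < m) (ha : 0 < a) :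
    definingNumber (grid (a * m)) (2 * (a * m) - s) + m * (a ^ 2 - definingNumber (grid a) (2 * a - s))
      ≤ (a * m) ^ 2 := by
  obtain ⟨P, rfl⟩ : ∃ P, m = P + 1 := ⟨m - 1, by omega⟩
  have : NeZero P := ⟨by omega⟩
  have : NeZero a := ⟨by omega⟩
  classical
  obtain ⟨S, F, hF, hS⟩ := exists_forces_transport (n := a) (k := 2 * a - s) (by omega)
    (ZMod a) (ZMod a) (Fin (2 * a - s)) (ZMod.card a) (ZMod.card a) (Fintype.card_fin _)
  have h := (data0 P a (by omega)).bound S hF (a * (P + 1)) (2 * (a * (P + 1)) - s)
    (by simp [ZMod.card, mul_comm]) (by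
      simp only [ZMod.card, Fintype.card_fin]
      have : 2 * P * a = 2 * (a * P) := by ring
      rw [this, mul_add, mul_one]
      omega)
  rw [ZMod.card, hS, Fintype.card_option, ZMod.card] at h
  exact h

section border

variable (P a : ℕ) [NeZero P] [NeZero a]

def zz : Fin 4 → ZMod P := ![0, 1, 2, 4]
def dd : Fin 4 → ZMod P := ![1, 1, 2, 2]
def ee : Fin 4 → ZMod P := ![1, 1, (((P + 1) / 2 : ℕ) : ZMod P), (((P + 1) / 2 : ℕ) : ZMod P)]

theorem two_half {P : ℕ} (hP : P % 2 = 1) : (2 : ZMod P) * (((P + 1) / 2 : ℕ) : ZMod P) = 1 := by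
  have h : ((2 * ((P + 1) / 2) : ℕ) : ZMod P) = ((P + 1 : ℕ) : ZMod P) := by
    congr 1
    omega
  push_cast at h
  rw [h]
  simp

theorem ddee (hP : P % 2 = 1) (g : Fin 4) : dd P g * ee P g = 1 := by
  fin_cases g
  · simp [dd, ee]
  · simp [dd, ee]
  · exact two_half hP
  · exact two_half hP

theorem cast_ne_zero {P : ℕ} (k : ℕ) (h0 : 0 < k) (h1 : k < P) : ((k : ℕ) : ZMod P) ≠ 0 := by
  intro h
  rw [ZMod.natCast_eq_zero_iff] at h
  exact absurd (Nat.le_of_dvd h0 h) (by omega)

theorem tau_disj (hP : P % 2 = 1) (hP5 : 5 ≤ P) (g g' : Fin 4) (hg : g ≠ g')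
    (i : Option (ZMod P)) :
    tauF (zz P g) (dd P g) (ee P g) i ≠ tauF (zz P g') (dd P g') (ee P g') i := by
  have h1 := cast_ne_zero (P := P) 1 (by omega) (by omega)
  have h2 := cast_ne_zero (P := P) 2 (by omega) (by omega)
  have h3 := cast_ne_zero (P := P) 3 (by omega) (by omega)
  have h4 := cast_ne_zero (P := P) 4 (by omega) (by omega)
  push_cast at h1 h2 h3 h4
  have main : ∀ g g' : Fin 4, g < g' → tauF (zz P g) (dd P g) (ee P g) i ≠
      tauF (zz P g') (dd P g') (ee P g') i := by
    have e01 : tauF (zz P 0) (dd P 0) (ee P 0) i ≠ tauF (zz P 1) (dd P 1) (ee P 1) i := by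
      have := tauF_disj_same hP (ddee P hP 0) (z := zz P 0) (by omega) i
      have e : zz P 0 + dd P 0 = zz P 1 := by simp [zz, dd]
      rw [e] at this
      exact this
    have e23 : tauF (zz P 2) (dd P 2) (ee P 2) i ≠ tauF (zz P 3) (dd P 3) (ee P 3) i := by
      have := tauF_disj_same hP (ddee P hP 2) (z := zz P 2) (by omega) i
      have e : zz P 2 + dd P 2 = zz P 3 := by simp [zz, dd]; norm_num
      rw [e] at this
      exact this
    have cross : ∀ g g' : Fin 4, g.val < 2 → 2 ≤ g'.val → zz P g ≠ zz P g' →
        tauF (zz P g) (dd P g) (ee P g) i ≠ tauF (zz P g') (dd P g') (ee P g') i := by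
      intro g g' hg hg' hz
      have hd : dd P g = 1 := by
        fin_cases g
        · rfl
        · rfl
        · simp at hg
        · simp at hg
      have hd' : dd P g' = 2 := by
        fin_cases g'
        · simp at hg'
        · simp at hg'
        · rfl
        · rfl
      refine tauF_disj_diff hP (ddee P hP g) (ddee P hP g') hz ?_ ?_ i
      · rw [hd, hd']
        intro h
        apply h1
        linear_combination -h
      · rw [hd, hd']
        intro h
        apply h3
        linear_combination h
    intro g g' hlt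
    fin_cases g <;> fin_cases g'
    all_goals try (simp at hlt; done)
    · exact e01
    · apply cross _ _ (by decide) (by decide)
      show (0 : ZMod P) ≠ 2
      exact fun h => h2 h.symm
    · apply cross _ _ (by decide) (by decide)
      show (0 : ZMod P) ≠ 4
      exact fun h => h4 h.symm
    · apply cross _ _ (by decide) (by decide)
      show (1 : ZMod P) ≠ 2
      intro h
      apply h1
      linear_combination -h
    · apply cross _ _ (by decide) (by decide)
      show (1 : ZMod P) ≠ 4
      intro h
      apply h3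
      linear_combination -h
    · exact e23
  rcases lt_or_gt_of_ne hg with h | h
  · exact main g g' h
  · exact (main g' g h).symm

/-- The permutation `q ↦ (q - u) / 2`. -/
def rho {a : ℕ} (ha : a % 2 = 1) (u : ZMod a) : Equiv.Perm (ZMod a) where
  toFun := fun q => (q - u) * (((a + 1) / 2 : ℕ) : ZMod a)
  invFun := fun r => 2 * r + u
  left_inv := by
    intro q
    have := two_half ha
    linear_combination (q - u) * this
  right_inv := by
    intro r
    have := two_half ha
    linear_combination r * this

theorem rho_apply {a : ℕ} (ha : a % 2 = 1) (u q : ZMod a) :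
    rho ha u q = (q - u) * (((a + 1) / 2 : ℕ) : ZMod a) := rfl

/-- Block data with border. -/
noncomputable def data4 (hP4 : P % 4 = 1) (hP5 : 5 ≤ P) (ha : a % 2 = 1) {b : ℕ}
    (j : Fin b ↪ Fin 4 × ZMod a) :
    BlockData (Option (ZMod P)) (ZMod P) (ZMod a) b where
  card := by simp
  φ := phi
  φsymm := phi_symm
  φinj := phi_inj (by omega)
  o := orient
  oanti := orient_anti
  L := fun q r => q - r
  Lrow := fun q r r' h => by simpa using h
  Lcol := fun r q q' h => by simpa using h
  τ := fun l => Function.Involutive.toPerm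
    (tauF (zz P (j l).1) (dd P (j l).1) (ee P (j l).1))
    (tauF_inv (by omega) (ddee P (by omega) _))
  τinv := fun l => tauF_inv (by omega) (ddee P (by omega) _)
  τne := fun l => tauF_ne (by omega) (ddee P (by omega) _) (by omega)
  τrainbow := fun l => tauF_rainbow (by omega) (ddee P (by omega) _) hP4
  ρ := fun l => rho ha (j l).2
  ρL := fun l q q' h => by
    simp only [rho_apply] at h
    have := two_half ha
    linear_combination 2 * h + (q - q') * this
  disj := by
    intro l l' i q h1 h2
    have hg : (j l).1 = (j l').1 := by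
      by_contra hne
      exact tau_disj P (by omega) hP5 _ _ hne i h1
    have hu : (j l).2 = (j l').2 := by
      rw [rho_apply, rho_apply] at h2
      have := two_half ha
      linear_combination (-2 : ZMod a) * h2 + ((j l').2 - (j l).2) * this
    exact j.injective (Prod.ext hg hu)

end border

/-- The product inequality with a border. -/
theorem border_bound {a s P b : ℕ} (hs : s ≤ a) (ha : a % 2 = 1) (hP4 : P % 4 = 1) (hP5 : 5 ≤ P)
    (hb : b ≤ 4 * a) :
    definingNumber (grid (a * (P + 1) + b)) (2 * (a * (P + 1) + b) - s)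
      + (P + 1) * (a ^ 2 - definingNumber (grid a) (2 * a - s)) ≤ (a * (P + 1) + b) ^ 2 := by
  have : NeZero P := ⟨by omega⟩
  have : NeZero a := ⟨by omega⟩
  classical
  obtain ⟨S, F, hF, hS⟩ := exists_forces_transport (n := a) (k := 2 * a - s) (by omega)
    (ZMod a) (ZMod a) (Fin (2 * a - s)) (ZMod.card a) (ZMod.card a) (Fintype.card_fin _)
  obtain ⟨j⟩ : Nonempty (Fin b ↪ Fin 4 × ZMod a) := by
    apply Function.Embedding.nonempty_of_card_le
    simpa [ZMod.card] using hb
  have h := (data4 P a hP4 hP5 ha j).bound S hF (a * (P + 1) + b)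
    (2 * (a * (P + 1) + b) - s)
    (by simp [ZMod.card, mul_comm]) (by
      simp only [ZMod.card, Fintype.card_fin]
      have h1 : 2 * P * a = 2 * (a * P) := by ring
      have h2 : a * (P + 1) = a * P + a := by ring
      rw [h1, h2]
      omega)
  rw [ZMod.card, hS, Fintype.card_option, ZMod.card] at h
  exact h

end Pool.Agent.Helper33.DefNum
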