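import Pool.Agent.Helper33.DefNum.General
import Pool.Agent.Helper33.DefNum.LowerTight
import Pool.Agent.Helper33.DefNum.Upper
import Pool.Agent.Helper33.DefNum.Base5
import Pool.Agent.Helper33.DefNum.Latin

/-!
# Assembly
-/

namespace Pool.Agent.Helper33.DefNum

theorem undefined_five : 8 ≤ 5 ^ 2 - definingNumber (grid 5) (2 * 5 - 2) := by
  have := base5_bound
  have e : 2 * 5 - 2 = 8 := rfl
  rw [e]
  omega

theorem exact_ten {t : ℕ} (ht : 1 ≤ t) :
    definingNumber (grid (10 * t)) (20 * t - 2) = 100 * t ^ 2 - 16 * t := by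
  have h1 := product_bound (a := 5) (s := 2) (m := 2 * t) (by omega) (by omega) (by omega)
    (by omega)
  have h2 := tight_lower (n := 10 * t) (by omega)
  have e1 : 5 * (2 * t) = 10 * t := by ring
  have e2 : 2 * (10 * t) - 2 = 20 * t - 2 := by omega
  rw [e1, e2] at h1
  rw [e2] at h2
  have h3 : 2 * t * 8 ≤ 2 * t * (5 ^ 2 - definingNumber (grid 5) (2 * 5 - 2)) :=
    Nat.mul_le_mul_left _ undefined_five
  have e3 : (10 * t) ^ 2 = 100 * t ^ 2 := by ring
  rw [e3] at h1 h2
  generalize definingNumber (grid (10 * t)) (20 * t - 2) = d at h1 h2 ⊢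
  generalize 2 * t * (5 ^ 2 - definingNumber (grid 5) (2 * 5 - 2)) = u at h1 h3
  omega

theorem border_general {a s n : ℕ} (hs : s ≤ a) (ha : a % 2 = 1) (hn : 6 * a ≤ n) :
    a * definingNumber (grid n) (2 * n - s)
      + (n - 4 * a) * (a ^ 2 - definingNumber (grid a) (2 * a - s)) ≤ a * n ^ 2 := by
  -- n = a (4 j + 2) + b
  set j := (n - 2 * a) / (4 * a) with hj
  set b := (n - 2 * a) % (4 * a) with hb
  have ha0 : 0 < a := by omega
  have hdiv : 4 * a * j + b = n - 2 * a := Nat.div_add_mod _ _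
  have hblt : b < 4 * a := Nat.mod_lt _ (by omega)
  have hj1 : 1 ≤ j := (Nat.one_le_div_iff (by omega)).2 (by omega)
  have hn' : a * (4 * j + 1 + 1) + b = n := by
    have : a * (4 * j + 1 + 1) = 4 * a * j + 2 * a := by ring
    omega
  have h := border_bound (a := a) (s := s) (P := 4 * j + 1) (b := b) hs ha (by omega) (by omega)
    hblt.le
  rw [hn'] at h
  have h2 := Nat.mul_le_mul_left a h
  rw [mul_add] at h2
  have h3 : (n - 4 * a) * (a ^ 2 - definingNumber (grid a) (2 * a - s)) ≤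
      a * ((4 * j + 1 + 1) * (a ^ 2 - definingNumber (grid a) (2 * a - s))) := by
    rw [← mul_assoc]
    apply Nat.mul_le_mul_right
    omega
  omega

theorem upper_two {n : ℕ} (hn : 30 ≤ n) :
    5 * definingNumber (grid n) (2 * n - 2) + 8 * n ≤ 5 * n ^ 2 + 160 := by
  have h := border_general (a := 5) (s := 2) (n := n) (by omega) (by omega) (by omega)
  have h3 : (n - 4 * 5) * 8 ≤ (n - 4 * 5) * (5 ^ 2 - definingNumber (grid 5) (2 * 5 - 2)) :=
    Nat.mul_le_mul_left _ undefined_five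
  omega

theorem product_latin {s m : ℕ} (hs : 1 ≤ s) (hm : m % 2 = 0) (hm0 : 0 < m) :
    definingNumber (grid (s * m)) (2 * (s * m) - s) + m * (s ^ 2 - s ^ 2 / 4) ≤ (s * m) ^ 2 := by
  have h := product_bound (a := s) (s := s) (m := m) le_rfl hm hm0 hs
  have e : 2 * s - s = s := by omega
  rw [e] at h
  have h1 := latin_bound s hs
  have h2 : m * (s ^ 2 - s ^ 2 / 4) ≤ m * (s ^ 2 - definingNumber (grid s) s) :=
    Nat.mul_le_mul_left _ (by omega)
  omega

theorem border_latin {s n : ℕ} (hs : s % 2 = 1) (hn : 6 * s ≤ n) :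
    s * definingNumber (grid n) (2 * n - s) + (n - 4 * s) * (s ^ 2 - s ^ 2 / 4) ≤ s * n ^ 2 := by
  have h := border_general (a := s) (s := s) (n := n) le_rfl hs hn
  have e : 2 * s - s = s := by omega
  rw [e] at h
  have h1 := latin_bound s (by omega)
  have h2 : (n - 4 * s) * (s ^ 2 - s ^ 2 / 4) ≤ (n - 4 * s) * (s ^ 2 - definingNumber (grid s) s) :=
    Nat.mul_le_mul_left _ (by omega)
  omega

end Pool.Agent.Helper33.DefNum
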