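import Pool.Agent.Helper33.DefNum.Defs

/-!
# Arrays: properly coloured arrays and forcing sets
-/

namespace Pool.Agent.Helper33.DefNum

open Finset

/-- A properly coloured array. -/
def Proper {R C K : Type*} (F : R → C → K) : Prop :=
  (∀ i, Function.Injective (F i)) ∧ (∀ j, Function.Injective fun i => F i j)

/-- `F` is proper and it is the only proper array that agrees with `F` on `S`. -/
def Forces {R C K : Type*} (S : Finset (R × C)) (F : R → C → K) : Prop :=
  Proper F ∧ ∀ G : R → C → K, Proper G → (∀ x ∈ S, G x.1 x.2 = F x.1 x.2) → G = F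

theorem proper_of_coloring {n k : ℕ} (c : (grid n).Coloring (Fin k)) :
    Proper (fun i j => c (i, j)) := by
  constructor
  · intro i j j' h
    by_contra hne
    have : (grid n).Adj (i, j) (i, j') := by
      simp [grid, SimpleGraph.boxProd_adj, hne]
    exact c.valid this h
  · intro j i i' h
    by_contra hne
    have : (grid n).Adj (i, j) (i', j) := by
      simp [grid, SimpleGraph.boxProd_adj, hne]
    exact c.valid this h

/-- The colouring attached to a proper array. -/
def coloringOf {n k : ℕ} (F : Fin n → Fin n → Fin k) (hF : Proper F) :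
    (grid n).Coloring (Fin k) :=
  SimpleGraph.Coloring.mk (fun x => F x.1 x.2) (by
    rintro ⟨i, j⟩ ⟨i', j'⟩ h
    rw [SimpleGraph.boxProd_adj] at h
    simp only [SimpleGraph.top_adj] at h
    rcases h with ⟨h1, h2⟩ | ⟨h1, h2⟩
    · subst h2
      intro h
      exact h1 (hF.2 j h)
    · subst h2
      intro h
      exact h1 (hF.1 i h))

theorem coloringOf_apply {n k : ℕ} (F : Fin n → Fin n → Fin k) (hF : Proper F) (x) :
    coloringOf F hF x = F x.1 x.2 := rfl

theorem isDefiningSet_of_forces {n k : ℕ} (S : Finset (Fin n × Fin n))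
    (F : Fin n → Fin n → Fin k) (h : Forces S F) :
    IsDefiningSet (grid n) k S (fun x => F x.1 x.2) := by
  refine ⟨coloringOf F h.1, fun v _ => rfl, ?_⟩
  intro c hc
  have := h.2 (fun i j => c (i, j)) (proper_of_coloring c) (fun x hx => hc x hx)
  ext x
  rw [coloringOf_apply]
  have h2 := congrFun (congrFun this x.1) x.2
  simp only [Prod.mk.eta] at h2
  rw [h2]

theorem forces_of_isDefiningSet {n k : ℕ} (S : Finset (Fin n × Fin n))
    (p : Fin n × Fin n → Fin k) (h : IsDefiningSet (grid n) k S p) :
    ∃ F : Fin n → Fin n → Fin k, Forces S F := by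
  obtain ⟨c, hc, hu⟩ := h
  refine ⟨fun i j => c (i, j), proper_of_coloring c, ?_⟩
  intro G hG hGS
  have := hu (coloringOf G hG) (by
    intro v hv
    rw [coloringOf_apply, hGS v hv]
    exact hc v hv)
  funext i j
  rw [← this]
  rfl

/-- The cyclic array shows that colourings exist for `n ≤ k`. -/
theorem exists_proper {n k : ℕ} (h : n ≤ k) : ∃ F : Fin n → Fin n → Fin k, Proper F := by
  rcases Nat.eq_zero_or_pos n with h0 | h0
  · subst h0
    exact ⟨fun i => i.elim0, fun i => i.elim0, fun j => j.elim0⟩
  haveI : NeZero n := ⟨h0.ne'⟩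
  refine ⟨fun i j => Fin.castLE h (i + j), ?_, ?_⟩
  · intro i j j' hj
    have := Fin.castLE_injective h hj
    exact add_left_cancel this
  · intro j i i' hi
    have := Fin.castLE_injective h hi
    exact add_right_cancel this

theorem exists_forces {n k : ℕ} (h : n ≤ k) :
    ∃ (S : Finset (Fin n × Fin n)) (F : Fin n → Fin n → Fin k), Forces S F ∧
      S.card = definingNumber (grid n) k := by
  have hne : {m | ∃ (S : Finset (Fin n × Fin n)) (p : Fin n × Fin n → Fin k),
      IsDefiningSet (grid n) k S p ∧ S.card = m}.Nonempty := by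
    obtain ⟨F, hF⟩ := exists_proper h
    refine ⟨_, Finset.univ, _, isDefiningSet_of_forces Finset.univ F ⟨hF, ?_⟩, rfl⟩
    intro G _ hG
    funext i j
    exact hG (i, j) (Finset.mem_univ _)
  obtain ⟨S, p, hS, hc⟩ := Nat.sInf_mem hne
  obtain ⟨F, hF⟩ := forces_of_isDefiningSet S p hS
  exact ⟨S, F, hF, hc⟩

/-- Transport of an upper bound from arbitrary index types. -/
theorem definingNumber_le {n k : ℕ} {R C K : Type*} [Fintype R] [Fintype C] [Fintype K]
    (hR : Fintype.card R = n) (hC : Fintype.card C = n) (hK : Fintype.card K = k)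
    (S : Finset (R × C)) (F : R → C → K) (hF : Forces S F) :
    definingNumber (grid n) k ≤ S.card := by
  classical
  let eR : R ≃ Fin n := Fintype.equivFinOfCardEq hR
  let eC : C ≃ Fin n := Fintype.equivFinOfCardEq hC
  let eK : K ≃ Fin k := Fintype.equivFinOfCardEq hK
  let S' : Finset (Fin n × Fin n) := S.map (Equiv.prodCongr eR eC).toEmbedding
  let F' : Fin n → Fin n → Fin k := fun i j => eK (F (eR.symm i) (eC.symm j))
  have hF' : Forces S' F' := by
    refine ⟨⟨?_, ?_⟩, ?_⟩
    · intro i j j' h
      exact eC.symm.injective (hF.1.1 _ (eK.injective h))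
    · intro j i i' h
      exact eR.symm.injective (hF.1.2 _ (eK.injective h))
    · intro G hG hGS
      have h1 := hF.2 (fun r c => eK.symm (G (eR r) (eC c))) ⟨?_, ?_⟩ ?_
      · funext i j
        have h2 := congrFun (congrFun h1 (eR.symm i)) (eC.symm j)
        simp only [Equiv.apply_symm_apply] at h2
        show G i j = eK (F (eR.symm i) (eC.symm j))
        rw [← h2, Equiv.apply_symm_apply]
      · intro r c c' h
        exact eC.injective (hG.1 _ (eK.symm.injective h))
      · intro c r r' h
        exact eR.injective (hG.2 _ (eK.symm.injective h))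
      · intro x hx
        have h3 := hGS (eR x.1, eC x.2) (by
          simp only [S', Finset.mem_map_equiv]
          simpa using hx)
        simp only [F', Equiv.symm_apply_apply] at h3
        rw [h3, Equiv.symm_apply_apply]
  have hd := isDefiningSet_of_forces S' F' hF'
  have hcard : S'.card = S.card := Finset.card_map _
  rw [← hcard]
  exact Nat.sInf_le ⟨S', _, hd, rfl⟩

/-- Transposition. -/
theorem Forces.transpose {R C K : Type*} [DecidableEq R] [DecidableEq C]
    {S : Finset (R × C)} {F : R → C → K} (h : Forces S F) :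
    Forces (S.map (Equiv.prodComm R C).toEmbedding) (fun j i => F i j) := by
  refine ⟨⟨h.1.2, h.1.1⟩, ?_⟩
  intro G hG hGS
  have := h.2 (fun i j => G j i) ⟨hG.2, hG.1⟩ (by
    intro x hx
    exact hGS (x.2, x.1) (by simpa [Finset.mem_map_equiv] using hx))
  funext j i
  exact congrFun (congrFun this i) j

end Pool.Agent.Helper33.DefNum
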