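import Pool.Agent.Helper33.DefNum.Prolong

/-!
# The block construction
-/

namespace Pool.Agent.Helper33.DefNum

open Finset

/-- A proper edge colouring `φ` of the complete graph on `B` with `|B| - 1` colours, an
orientation `o`, and `b` border marks: perfect matchings `τ l` of `B` and permutations `ρ l` of
`Q` that are compatible with the Latin square `L`. -/
structure BlockData (B Φ Q : Type*) [Fintype B] [Fintype Φ] [Fintype Q] (b : ℕ) where
  card : Fintype.card B = Fintype.card Φ + 1
  φ : B → B → Φ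
  φsymm : ∀ i j, φ i j = φ j i
  φinj : ∀ i j j', j ≠ i → j' ≠ i → φ i j = φ i j' → j = j'
  o : B → B → Bool
  oanti : ∀ i j, i ≠ j → o j i = !(o i j)
  L : Q → Q → Q
  Lrow : ∀ q, Function.Injective (L q)
  Lcol : ∀ r, Function.Injective (fun q => L q r)
  τ : Fin b → Equiv.Perm B
  τinv : ∀ l i, τ l (τ l i) = i
  τne : ∀ l i, τ l i ≠ i
  τrainbow : ∀ l i j, φ i (τ l i) = φ j (τ l j) → j = i ∨ j = τ l i
  ρ : Fin b → Equiv.Perm Q
  ρL : ∀ l, Function.Injective (fun q => L q (ρ l q))
  disj : ∀ l l' i q, τ l i = τ l' i → ρ l q = ρ l' q → l = l'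

namespace BlockData

variable {B Φ Q D : Type*} [Fintype B] [Fintype Φ] [Fintype Q] [DecidableEq B] {b : ℕ}
  (W : BlockData B Φ Q b) (f : Q → Q → D)

theorem φsurj (i : B) (c : Φ) : ∃ j, j ≠ i ∧ W.φ i j = c := by
  classical
  have h : ((Finset.univ.erase i).image (W.φ i)) = Finset.univ := by
    apply Finset.eq_univ_of_card
    rw [Finset.card_image_of_injOn, Finset.card_erase_of_mem (Finset.mem_univ _), Finset.card_univ,
      W.card, Nat.add_sub_cancel]
    intro j hj j' hj' h
    have hj := Finset.mem_coe.1 hj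
    have hj' := Finset.mem_coe.1 hj'
    exact W.φinj i j j' (Finset.ne_of_mem_erase hj) (Finset.ne_of_mem_erase hj') h
  have hc : c ∈ ((Finset.univ.erase i).image (W.φ i)) := by rw [h]; exact Finset.mem_univ _
  obtain ⟨j, hj, hjc⟩ := Finset.mem_image.1 hc
  exact ⟨j, Finset.ne_of_mem_erase hj, hjc⟩

/-- The array without border. -/
def base : B × Q → B × Q → (Bool × Φ × Q) ⊕ D := fun x y =>
  if x.1 = y.1 then .inr (f x.2 y.2) else .inl (W.o x.1 y.1, W.φ x.1 y.1, W.L x.2 y.2)

theorem base_diag (i : B) (q r : Q) : W.base f (i, q) (i, r) = .inr (f q r) := if_pos rfl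

theorem base_off (i j : B) (q r : Q) (h : i ≠ j) :
    W.base f (i, q) (j, r) = .inl (W.o i j, W.φ i j, W.L q r) := if_neg h

variable {f}

theorem base_proper (hf : Proper f) : Proper (W.base f) := by
  constructor
  · rintro ⟨i, q⟩ ⟨j, r⟩ ⟨j', r'⟩ h
    by_cases h1 : i = j <;> by_cases h2 : i = j'
    · subst h1 h2
      rw [base_diag, base_diag] at h
      rw [hf.1 q (Sum.inr.inj h)]
    · subst h1
      rw [base_diag, W.base_off f _ _ _ _ h2] at h
      cases h
    · subst h2
      rw [base_diag, W.base_off f _ _ _ _ h1] at h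
      cases h
    · rw [W.base_off f _ _ _ _ h1, W.base_off f _ _ _ _ h2] at h
      have h3 := Sum.inl.inj h
      simp only [Prod.mk.injEq] at h3
      obtain ⟨_, h4, h5⟩ := h3
      rw [W.φinj i j j' (Ne.symm h1) (Ne.symm h2) h4, W.Lrow q h5]
  · rintro ⟨j, r⟩ ⟨i, q⟩ ⟨i', q'⟩ h
    simp only at h
    by_cases h1 : i = j <;> by_cases h2 : i' = j
    · subst h1 h2
      rw [base_diag, base_diag] at h
      rw [hf.2 r (Sum.inr.inj h)]
    · subst h1
      rw [base_diag, W.base_off f _ _ _ _ h2] at h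
      cases h
    · subst h2
      rw [base_diag, W.base_off f _ _ _ _ h1] at h
      cases h
    · rw [W.base_off f _ _ _ _ h1, W.base_off f _ _ _ _ h2] at h
      have h3 := Sum.inl.inj h
      simp only [Prod.mk.injEq] at h3
      obtain ⟨_, h4, h5⟩ := h3
      rw [W.φsymm i j, W.φsymm i' j] at h4
      rw [W.φinj j i i' h1 h2 h4, W.Lcol r h5]

/-- The marks. -/
def marks (hf : Proper f) : Marks b (W.base f) where
  t := fun l => Equiv.prodCongr (W.τ l) (W.ρ l)
  disj := by
    rintro l l' ⟨i, q⟩ h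
    simp only [Equiv.prodCongr_apply, Prod.map_apply, Prod.mk.injEq] at h
    exact W.disj l l' i q h.1 h.2
  inj := by
    rintro l ⟨i, q⟩ ⟨j, r⟩ h
    simp only [Equiv.prodCongr_apply, Prod.map_apply] at h
    rw [W.base_off f _ _ _ _ (W.τne l i).symm, W.base_off f _ _ _ _ (W.τne l j).symm] at h
    have h3 := Sum.inl.inj h
    simp only [Prod.mk.injEq] at h3
    obtain ⟨h3, h4, h5⟩ := h3
    rw [W.ρL l h5]
    rcases W.τrainbow l i j h4 with h6 | h6
    · rw [h6]
    · exfalso
      subst h6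
      rw [W.τinv, W.oanti i (W.τ l i) (W.τne l i).symm] at h3
      simp at h3

theorem marks_t (hf : Proper f) (l : Fin b) (i : B) (q : Q) :
    (W.marks hf).t l (i, q) = (W.τ l i, W.ρ l q) := rfl

theorem marks_t_symm (hf : Proper f) (l : Fin b) (i : B) (q : Q) :
    ((W.marks hf).t l).symm (i, q) = (W.τ l i, (W.ρ l).symm q) := by
  rw [Equiv.symm_apply_eq, marks_t, W.τinv, Equiv.apply_symm_apply]

/-- The whole array. -/
noncomputable def arr (hf : Proper f) :
    (B × Q) ⊕ Fin b → (B × Q) ⊕ Fin b → ((Bool × Φ × Q) ⊕ D) ⊕ (Bool × Fin b) :=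
  prolong (W.base f) (W.marks hf) (fun x y => W.o x.1 y.1)

theorem arr_proper (hf : Proper f) : Proper (W.arr hf) :=
  prolong_proper _ _ (W.base_proper hf)

theorem arr_diag (hf : Proper f) (i : B) (q r : Q) :
    W.arr hf (.inl (i, q)) (.inl (i, r)) = .inl (.inr (f q r)) := by
  rw [arr, prolong_unmarked, base_diag]
  intro l h
  rw [marks_t, Prod.mk.injEq] at h
  exact W.τne l i h.1

/-- A colour outside `D` occurs in row `(i,q)` or in column `(i,r)` outside the block `i`. -/
theorem arr_seen (hf : Proper f) (i : B) (q r : Q) (c : ((Bool × Φ × Q) ⊕ D) ⊕ (Bool × Fin b))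
    (hc : ∀ d, c ≠ .inl (.inr d)) :
    (∃ y, (∀ r', y ≠ .inl (i, r')) ∧ W.arr hf (.inl (i, q)) y = c) ∨
    (∃ x, (∀ q', x ≠ .inl (i, q')) ∧ W.arr hf x (.inl (i, r)) = c) := by
  rcases c with (⟨e, c, v⟩ | d) | ⟨e, l⟩
  · obtain ⟨j, hji, hjc⟩ := W.φsurj i c
    by_cases ho : W.o i j = e
    · left
      obtain ⟨r', hr'⟩ := (Finite.injective_iff_surjective.1 (W.Lrow q)) v
      obtain ⟨y, hy1, hy2⟩ := prolong_seen (W.marks hf) (fun x y => W.o x.1 y.1) (i, q) (j, r')
      rw [W.base_off f _ _ _ _ hji.symm, ho, hjc, hr'] at hy1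
      refine ⟨y, ?_, hy1⟩
      intro r'' h
      rcases hy2 with h2 | ⟨l, h2⟩
      · rw [h2] at h
        have := Sum.inl.inj h
        rw [Prod.mk.injEq] at this
        exact hji this.1
      · rw [h2] at h
        cases h
    · right
      have ho' : W.o j i = e := by
        rw [W.oanti i j hji.symm]
        cases e <;> cases h : W.o i j <;> simp_all
      obtain ⟨q', hq'⟩ := (Finite.injective_iff_surjective.1 (W.Lcol r)) v
      simp only at hq'
      obtain ⟨x, hx1, hx2⟩ := prolong_seen' (W.marks hf) (fun x y => W.o x.1 y.1) (j, q') (i, r)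
      rw [W.base_off f _ _ _ _ hji, ho', W.φsymm j i, hjc, hq'] at hx1
      refine ⟨x, ?_, hx1⟩
      intro q'' h
      rcases hx2 with h2 | ⟨l, h2⟩
      · rw [h2] at h
        have := Sum.inl.inj h
        rw [Prod.mk.injEq] at this
        exact hji this.1
      · rw [h2] at h
        cases h
  · exact absurd rfl (hc d)
  · by_cases ho : W.o i (W.τ l i) = e
    · left
      refine ⟨.inl (W.τ l i, W.ρ l q), ?_, ?_⟩
      · intro r' h
        have := Sum.inl.inj h
        rw [Prod.mk.injEq] at this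
        exact W.τne l i this.1
      · have := prolong_marked (W.marks hf) (fun x y => W.o x.1 y.1) (i, q) l
        rw [marks_t] at this
        simp only [ho] at this
        exact this
    · right
      refine ⟨.inl (W.τ l i, (W.ρ l).symm r), ?_, ?_⟩
      · intro r' h
        have := Sum.inl.inj h
        rw [Prod.mk.injEq] at this
        exact W.τne l i this.1
      · have ho' : W.o (W.τ l i) i = e := by
          rw [W.oanti i _ (W.τne l i).symm]
          cases e <;> cases h : W.o i (W.τ l i) <;> simp_all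
        have := prolong_marked' (W.marks hf) (fun x y => W.o x.1 y.1) (i, r) l
        rw [marks_t_symm] at this
        simp only [ho'] at this
        exact this

open Classical in
/-- The undefined cells. -/
noncomputable def undef (T : Finset (Q × Q)) : Finset (((B × Q) ⊕ Fin b) × ((B × Q) ⊕ Fin b)) :=
  ((Finset.univ : Finset B) ×ˢ T).map
    ⟨fun x => (.inl (x.1, x.2.1), .inl (x.1, x.2.2)), by
      rintro ⟨i, q, r⟩ ⟨i', q', r'⟩ h
      simp only [Prod.mk.injEq, Sum.inl.injEq] at h
      obtain ⟨⟨rfl, rfl⟩, ⟨_, rfl⟩⟩ := h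
      rfl⟩

theorem mem_undef (T : Finset (Q × Q)) (x y) :
    (x, y) ∈ (undef T : Finset (((B × Q) ⊕ Fin b) × ((B × Q) ⊕ Fin b))) ↔
      ∃ i q r, (q, r) ∈ T ∧ x = .inl (i, q) ∧ y = .inl (i, r) := by
  simp only [undef, Finset.mem_map, Finset.mem_product, Finset.mem_univ, true_and,
    Function.Embedding.coeFn_mk, Prod.mk.injEq, Prod.exists]
  constructor
  · rintro ⟨i, q, r, h, h1, h2⟩
    exact ⟨i, q, r, h, h1.symm, h2.symm⟩
  · rintro ⟨i, q, r, h, h1, h2⟩
    exact ⟨i, q, r, h, h1.symm, h2.symm⟩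

open Classical in
theorem arr_forces (S : Finset (Q × Q)) (hf : Forces S f) :
    Forces (undef Sᶜ)ᶜ (W.arr hf.1) := by
  refine ⟨W.arr_proper hf.1, ?_⟩
  intro G hG hGS
  have hagree : ∀ x y, (¬ ∃ i q r, (q, r) ∉ S ∧ x = .inl (i, q) ∧ y = .inl (i, r)) →
      G x y = W.arr hf.1 x y := by
    intro x y h
    apply hGS (x, y)
    rw [Finset.mem_compl, mem_undef]
    rintro ⟨i, q, r, h1, h2, h3⟩
    exact h ⟨i, q, r, Finset.mem_compl.1 h1, h2, h3⟩
  have hD : ∀ i q r, ∃ d, G (.inl (i, q)) (.inl (i, r)) = .inl (.inr d) := by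
    intro i q r
    by_contra hcon
    push Not at hcon
    rcases W.arr_seen hf.1 i q r (G (.inl (i, q)) (.inl (i, r))) hcon with ⟨y, hy1, hy2⟩ | ⟨x, hx1, hx2⟩
    · rw [← hagree] at hy2
      · exact hy1 r (hG.1 _ hy2)
      · rintro ⟨i', q', r', _, h2, h3⟩
        have := Sum.inl.inj h2
        rw [Prod.mk.injEq] at this
        rw [← this.1] at h3
        exact hy1 r' h3
    · rw [← hagree] at hx2
      · exact hx1 q (hG.2 (.inl (i, r)) hx2)
      · rintro ⟨i', q', r', _, h2, h3⟩
        have := Sum.inl.inj h3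
        rw [Prod.mk.injEq] at this
        rw [← this.1] at h2
        exact hx1 q' h2
  choose g hg using hD
  have hgf : ∀ i, g i = f := by
    intro i
    apply hf.2 (g i)
    · constructor
      · intro q r r' h
        have h2 : G (.inl (i, q)) (.inl (i, r)) = G (.inl (i, q)) (.inl (i, r')) := by
          rw [hg, hg, h]
        have := Sum.inl.inj (hG.1 _ h2)
        rw [Prod.mk.injEq] at this
        exact this.2
      · intro r q q' h
        have h2 : G (.inl (i, q)) (.inl (i, r)) = G (.inl (i, q')) (.inl (i, r)) := by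
          rw [hg, hg]
          simp only at h
          rw [h]
        have := Sum.inl.inj (hG.2 (.inl (i, r)) h2)
        rw [Prod.mk.injEq] at this
        exact this.2
    · rintro ⟨q, r⟩ hqr
      have h1 := hagree (.inl (i, q)) (.inl (i, r)) (by
        rintro ⟨i', q', r', h1, h2, h3⟩
        have h2 := Sum.inl.inj h2
        have h3 := Sum.inl.inj h3
        rw [Prod.mk.injEq] at h2 h3
        rw [← h2.2, ← h3.2] at h1
        exact h1 hqr)
      rw [hg, arr_diag] at h1
      exact Sum.inr.inj (Sum.inl.inj h1)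
  funext x y
  by_cases h : ∃ i q r, (q, r) ∉ S ∧ x = .inl (i, q) ∧ y = .inl (i, r)
  · obtain ⟨i, q, r, _, rfl, rfl⟩ := h
    rw [hg, arr_diag, hgf]
  · exact hagree x y h

include W in
open Classical in
/-- The bound on the defining number. -/
theorem bound [Fintype D] (S : Finset (Q × Q)) (hf : Forces S f) (n k : ℕ)
    (hn : n = Fintype.card B * Fintype.card Q + b)
    (hk : k = 2 * Fintype.card Φ * Fintype.card Q + Fintype.card D + 2 * b) :
    definingNumber (grid n) k + Fintype.card B * (Fintype.card Q ^ 2 - S.card) ≤ n ^ 2 := by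
  have h5 : Sᶜ.card = Fintype.card Q ^ 2 - S.card := by
    rw [Finset.card_compl, Fintype.card_prod, sq]
  rw [← h5]
  have h1 : definingNumber (grid n) k ≤
      (undef Sᶜ : Finset (((B × Q) ⊕ Fin b) × ((B × Q) ⊕ Fin b)))ᶜ.card := by
    apply definingNumber_le _ _ _ _ _ (W.arr_forces S hf)
    · simp [hn]
    · simp [hn]
    · simp only [Fintype.card_sum, Fintype.card_prod, Fintype.card_bool, Fintype.card_fin, hk]
      ring
  have h2 : (undef Sᶜ : Finset (((B × Q) ⊕ Fin b) × ((B × Q) ⊕ Fin b))).card =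
      Fintype.card B * Sᶜ.card := by
    rw [undef, Finset.card_map, Finset.card_product, Finset.card_univ]
  have h3 := Finset.card_add_card_compl
    (undef Sᶜ : Finset (((B × Q) ⊕ Fin b) × ((B × Q) ⊕ Fin b)))
  have h4 : Fintype.card (((B × Q) ⊕ Fin b) × ((B × Q) ⊕ Fin b)) = n ^ 2 := by
    simp [hn, sq]
  rw [h4, h2] at h3
  omega

end BlockData

end Pool.Agent.Helper33.DefNum
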