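import Mathlib

/-!
# Defining numbers of colourings of `K_n × K_n`
-/

namespace Pool.Agent.Helper33.DefNum

/-- The Cartesian product `K_n × K_n`: vertex set `Fin n × Fin n`, two cells adjacent iff they
agree in exactly one coordinate. -/
abbrev grid (n : ℕ) : SimpleGraph (Fin n × Fin n) :=
  (⊤ : SimpleGraph (Fin n)) □ (⊤ : SimpleGraph (Fin n))

/-- `(S, p|_S)` is a defining set of a `k`-colouring of `G`: exactly one proper colouring
`V(G) → {colours}` with `k` colours restricts to `p` on `S`. -/
def IsDefiningSet {V : Type} (G : SimpleGraph V) (k : ℕ) (S : Finset V) (p : V → Fin k) : Prop :=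
  ∃! c : G.Coloring (Fin k), ∀ v ∈ S, c v = p v

/-- The defining number `d(G,k)`: least size of a defining set. -/
noncomputable def definingNumber {V : Type} (G : SimpleGraph V) (k : ℕ) : ℕ :=
  sInf {m | ∃ (S : Finset V) (p : V → Fin k), IsDefiningSet G k S p ∧ S.card = m}

end Pool.Agent.Helper33.DefNum
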