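import Mathlib

/-!
# A punctured Nullstellensatz for list colourings

If a graph has exactly one proper colouring from its lists, then the sum of `|L(v)| - 1` is at
most the number of edges.
-/

namespace Pool.Agent.Helper33.DefNum

open Finset

theorem lagrange_zero (L : Finset ℚ) (m : ℕ) (hm : m + 1 < L.card) :
    ∑ a ∈ L, a ^ m / ∏ b ∈ L.erase a, (a - b) = 0 := by
  have h := Lagrange.coeff_eq_sum (s := L) (v := fun a : ℚ => a) (P := Polynomial.X ^ m)
    (by intro a _ b _ h; exact h) (by
      rw [Polynomial.degree_X_pow]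
      exact_mod_cast (by omega : m < L.card))
  rw [Polynomial.coeff_X_pow, if_neg (by omega)] at h
  rw [h]
  simp

variable {V : Type*} [Fintype V] [DecidableEq V]

theorem functional_zero (L : V → Finset ℚ) (f : MvPolynomial V ℚ)
    (hdeg : f.totalDegree < ∑ v, ((L v).card - 1)) :
    ∑ x ∈ Fintype.piFinset L, MvPolynomial.eval x f *
      ∏ v, (∏ b ∈ (L v).erase (x v), (x v - b))⁻¹ = 0 := by
  have key : ∀ m ∈ f.support, ∑ x ∈ Fintype.piFinset L, (∏ v, x v ^ (m v)) *
      ∏ v, (∏ b ∈ (L v).erase (x v), (x v - b))⁻¹ = 0 := by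
    intro m hm
    have h1 : ∀ x : V → ℚ, (∏ v, x v ^ (m v)) *
        ∏ v, (∏ b ∈ (L v).erase (x v), (x v - b))⁻¹ =
        ∏ v, (fun v a => a ^ (m v) / ∏ b ∈ (L v).erase a, (a - b)) v (x v) := by
      intro x
      rw [← Finset.prod_mul_distrib]
      apply Finset.prod_congr rfl
      intro v _
      simp only [div_eq_mul_inv]
    rw [Finset.sum_congr rfl (fun x _ => h1 x)]
    have h1' := Finset.prod_univ_sum (t := L)
      (f := fun v a => a ^ (m v) / ∏ b ∈ (L v).erase a, (a - b))
    rw [← h1']
    have hm2 : ∃ v, m v + 1 < (L v).card := by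
      by_contra hcon
      push Not at hcon
      have h2 : ∑ v, ((L v).card - 1) ≤ ∑ v, m v := by
        apply Finset.sum_le_sum
        intro v _
        have := hcon v
        omega
      have h3 : ∑ v, m v ≤ f.totalDegree := by
        have := MvPolynomial.le_totalDegree hm
        rw [Finsupp.sum_fintype] at this
        · exact this
        · simp
      omega
    obtain ⟨v, hv⟩ := hm2
    apply Finset.prod_eq_zero (Finset.mem_univ v)
    exact lagrange_zero (L v) (m v) hv
  have h4 : ∀ x : V → ℚ, MvPolynomial.eval x f = ∑ m ∈ f.support, f.coeff m * ∏ v, x v ^ (m v) := by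
    intro x
    rw [MvPolynomial.eval_eq']
  have h5 : ∑ x ∈ Fintype.piFinset L, MvPolynomial.eval x f *
      ∏ v, (∏ b ∈ (L v).erase (x v), (x v - b))⁻¹ =
      ∑ m ∈ f.support, f.coeff m * ∑ x ∈ Fintype.piFinset L, (∏ v, x v ^ (m v)) *
      ∏ v, (∏ b ∈ (L v).erase (x v), (x v - b))⁻¹ := by
    simp_rw [h4, Finset.sum_mul, Finset.mul_sum]
    rw [Finset.sum_comm]
    apply Finset.sum_congr rfl
    intro m _
    apply Finset.sum_congr rfl
    intro x _
    ring
  rw [h5]
  apply Finset.sum_eq_zero
  intro m hm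
  rw [key m hm, mul_zero]

/-- If a graph (given by a set `E` of pairs) has exactly one proper colouring from the lists `L`,
then `∑ (|L v| - 1) ≤ |E|`. -/
theorem unique_colouring_bound (E : Finset (V × V)) (L : V → Finset ℚ) (c : V → ℚ)
    (hc : ∀ v, c v ∈ L v) (hE : ∀ e ∈ E, c e.1 ≠ c e.2)
    (huniq : ∀ c' : V → ℚ, (∀ v, c' v ∈ L v) → (∀ e ∈ E, c' e.1 ≠ c' e.2) → c' = c) :
    ∑ v, ((L v).card - 1) ≤ E.card := by
  by_contra hcon
  push Not at hcon
  set f : MvPolynomial V ℚ := ∏ e ∈ E, (MvPolynomial.X e.1 - MvPolynomial.X e.2) with hf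
  have hdeg : f.totalDegree ≤ E.card := by
    calc f.totalDegree ≤ ∑ e ∈ E, (MvPolynomial.X e.1 - MvPolynomial.X e.2 :
          MvPolynomial V ℚ).totalDegree := MvPolynomial.totalDegree_finsetProd _ _
      _ ≤ ∑ e ∈ E, 1 := by
          apply Finset.sum_le_sum
          intro e _
          refine (MvPolynomial.totalDegree_sub _ _).trans ?_
          simp [MvPolynomial.totalDegree_X]
      _ = E.card := by simp
  have h0 := functional_zero L f (lt_of_le_of_lt hdeg hcon)
  have heval : ∀ x : V → ℚ, MvPolynomial.eval x f = ∏ e ∈ E, (x e.1 - x e.2) := by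
    intro x
    rw [hf, map_prod]
    apply Finset.prod_congr rfl
    intro e _
    simp
  rw [Finset.sum_eq_single c] at h0
  · rcases mul_eq_zero.1 h0 with h | h
    · rw [heval, Finset.prod_eq_zero_iff] at h
      obtain ⟨e, he, h⟩ := h
      exact hE e he (sub_eq_zero.1 h)
    · rw [Finset.prod_eq_zero_iff] at h
      obtain ⟨v, _, h⟩ := h
      rw [inv_eq_zero, Finset.prod_eq_zero_iff] at h
      obtain ⟨b, hb, h⟩ := h
      exact (Finset.mem_erase.1 hb).1 (sub_eq_zero.1 h).symm
  · intro x hx hxc
    have : MvPolynomial.eval x f = 0 := by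
      by_contra h
      apply hxc
      apply huniq x
      · intro v
        exact Fintype.mem_piFinset.1 hx v
      · intro e he heq
        apply h
        rw [heval]
        exact Finset.prod_eq_zero he (sub_eq_zero.2 heq)
    rw [this, zero_mul]
  · intro h
    exact absurd (Fintype.mem_piFinset.2 hc) h

end Pool.Agent.Helper33.DefNum
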