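import Pool.Agent.Helper33.DefNum.Array
import Pool.Agent.Helper33.DefNum.Punctured

/-!
# The general lower bound `d(K_n × K_n, k) ≥ n (k - n)`
-/

namespace Pool.Agent.Helper33.DefNum

open Finset

set_option linter.unusedSimpArgs false

variable {n k : ℕ}

/-- Undefined cells in the row of `x` -/
def rowU (U : Finset (Fin n × Fin n)) (x : Fin n × Fin n) : Finset (Fin n × Fin n) :=
  U.filter fun y => y.1 = x.1

def colU (U : Finset (Fin n × Fin n)) (x : Fin n × Fin n) : Finset (Fin n × Fin n) :=
  U.filter fun y => y.2 = x.2

theorem card_row_compl (S : Finset (Fin n × Fin n)) (i : Fin n) :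
    (S.filter fun y => y.1 = i).card + (Sᶜ.filter fun y => y.1 = i).card = n := by
  have h1 : (S.filter fun y => y.1 = i).card + (Sᶜ.filter fun y => y.1 = i).card
      = ((Finset.univ : Finset (Fin n × Fin n)).filter fun y => y.1 = i).card := by
    rw [← Finset.card_union_of_disjoint]
    · congr 1
      ext y
      simp only [Finset.mem_union, Finset.mem_filter, Finset.mem_compl, Finset.mem_univ, true_and]
      tauto
    · rw [Finset.disjoint_left]
      intro y hy hy'
      simp only [Finset.mem_filter, Finset.mem_compl] at hy hy'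
      exact hy'.1 hy.1
  rw [h1]
  have h2 : ((Finset.univ : Finset (Fin n × Fin n)).filter fun y => y.1 = i)
      = (Finset.univ : Finset (Fin n)).map ⟨fun j => (i, j), by
          intro a b h; exact (Prod.mk.inj h).2⟩ := by
    ext ⟨a, b⟩
    simp only [Finset.mem_filter, Finset.mem_univ, true_and, Finset.mem_map,
      Function.Embedding.coeFn_mk, Prod.mk.injEq]
    constructor
    · rintro rfl; exact ⟨b, rfl, rfl⟩
    · rintro ⟨j, rfl, _⟩; rfl
  rw [h2, Finset.card_map, Finset.card_univ, Fintype.card_fin]

theorem card_col_compl (S : Finset (Fin n × Fin n)) (i : Fin n) :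
    (S.filter fun y => y.2 = i).card + (Sᶜ.filter fun y => y.2 = i).card = n := by
  have h1 : (S.filter fun y => y.2 = i).card + (Sᶜ.filter fun y => y.2 = i).card
      = ((Finset.univ : Finset (Fin n × Fin n)).filter fun y => y.2 = i).card := by
    rw [← Finset.card_union_of_disjoint]
    · congr 1
      ext y
      simp only [Finset.mem_union, Finset.mem_filter, Finset.mem_compl, Finset.mem_univ, true_and]
      tauto
    · rw [Finset.disjoint_left]
      intro y hy hy'
      simp only [Finset.mem_filter, Finset.mem_compl] at hy hy'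
      exact hy'.1 hy.1
  rw [h1]
  have h2 : ((Finset.univ : Finset (Fin n × Fin n)).filter fun y => y.2 = i)
      = (Finset.univ : Finset (Fin n)).map ⟨fun j => (j, i), by
          intro a b h; exact (Prod.mk.inj h).1⟩ := by
    ext ⟨a, b⟩
    simp only [Finset.mem_filter, Finset.mem_univ, true_and, Finset.mem_map,
      Function.Embedding.coeFn_mk, Prod.mk.injEq]
    constructor
    · rintro rfl; exact ⟨a, rfl, rfl⟩
    · rintro ⟨j, _, rfl⟩; rfl
  rw [h2, Finset.card_map, Finset.card_univ, Fintype.card_fin]

theorem sum_row_sq (U : Finset (Fin n × Fin n)) :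
    (U.card : ℤ) ^ 2 ≤ n * ∑ x ∈ U, ((U.filter fun y => y.1 = x.1).card : ℤ) := by
  have h1 : ∑ x ∈ U, ((U.filter fun y => y.1 = x.1).card : ℤ)
      = ∑ i : Fin n, ((U.filter fun y => y.1 = i).card : ℤ) ^ 2 := by
    rw [← Finset.sum_fiberwise_of_maps_to (s := U) (t := Finset.univ) (g := fun x => x.1)
      (fun _ _ => Finset.mem_univ _)]
    apply Finset.sum_congr rfl
    intro i _
    rw [Finset.sum_congr rfl (g := fun _ => ((U.filter fun y => y.1 = i).card : ℤ))]
    · rw [Finset.sum_const, sq, nsmul_eq_mul]
    · intro x hx
      rw [(Finset.mem_filter.1 hx).2]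
  have h2 : (U.card : ℤ) = ∑ i : Fin n, ((U.filter fun y => y.1 = i).card : ℤ) := by
    rw [Finset.card_eq_sum_card_fiberwise (s := U) (t := Finset.univ) (f := fun x => x.1)
      (fun _ _ => Finset.mem_coe.2 (Finset.mem_univ _))]
    push_cast
    rfl
  rw [h1, h2]
  have := sq_sum_le_card_mul_sum_sq (s := (Finset.univ : Finset (Fin n)))
    (f := fun i => ((U.filter fun y => y.1 = i).card : ℤ))
  simpa using this

theorem sum_col_sq (U : Finset (Fin n × Fin n)) :
    (U.card : ℤ) ^ 2 ≤ n * ∑ x ∈ U, ((U.filter fun y => y.2 = x.2).card : ℤ) := by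
  have h1 : ∑ x ∈ U, ((U.filter fun y => y.2 = x.2).card : ℤ)
      = ∑ i : Fin n, ((U.filter fun y => y.2 = i).card : ℤ) ^ 2 := by
    rw [← Finset.sum_fiberwise_of_maps_to (s := U) (t := Finset.univ) (g := fun x => x.2)
      (fun _ _ => Finset.mem_univ _)]
    apply Finset.sum_congr rfl
    intro i _
    rw [Finset.sum_congr rfl (g := fun _ => ((U.filter fun y => y.2 = i).card : ℤ))]
    · rw [Finset.sum_const, sq, nsmul_eq_mul]
    · intro x hx
      rw [(Finset.mem_filter.1 hx).2]
  have h2 : (U.card : ℤ) = ∑ i : Fin n, ((U.filter fun y => y.2 = i).card : ℤ) := by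
    rw [Finset.card_eq_sum_card_fiberwise (s := U) (t := Finset.univ) (f := fun x => x.2)
      (fun _ _ => Finset.mem_coe.2 (Finset.mem_univ _))]
    push_cast
    rfl
  rw [h1, h2]
  have := sq_sum_le_card_mul_sum_sq (s := (Finset.univ : Finset (Fin n)))
    (f := fun i => ((U.filter fun y => y.2 = i).card : ℤ))
  simpa using this

/-- Colours still available at the cell `x`. -/
def avail (S : Finset (Fin n × Fin n)) (F : Fin n → Fin n → Fin k) (x : Fin n × Fin n) :
    Finset (Fin k) :=
  Finset.univ.filter fun a => ∀ y ∈ S, (y.1 = x.1 ∨ y.2 = x.2) → F y.1 y.2 ≠ a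

theorem card_avail (S : Finset (Fin n × Fin n)) (F : Fin n → Fin n → Fin k)
    (x : Fin n × Fin n) :
    (k : ℤ) - 2 * n + (Sᶜ.filter fun y => y.1 = x.1).card
      + (Sᶜ.filter fun y => y.2 = x.2).card ≤ (avail S F x).card := by
  have h1 : (avail S F x)ᶜ ⊆ ((S.filter fun y => y.1 = x.1).image fun y => F y.1 y.2) ∪
      ((S.filter fun y => y.2 = x.2).image fun y => F y.1 y.2) := by
    intro a ha
    simp only [avail, Finset.mem_compl, Finset.mem_filter, Finset.mem_univ, true_and] at ha
    push Not at ha
    obtain ⟨y, hyS, hy, hya⟩ := ha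
    simp only [Finset.mem_union, Finset.mem_image, Finset.mem_filter]
    rcases hy with hy | hy
    · exact Or.inl ⟨y, ⟨hyS, hy⟩, hya⟩
    · exact Or.inr ⟨y, ⟨hyS, hy⟩, hya⟩
  have h2 := Finset.card_le_card h1
  have h3 := Finset.card_union_le ((S.filter fun y => y.1 = x.1).image fun y => F y.1 y.2)
      ((S.filter fun y => y.2 = x.2).image fun y => F y.1 y.2)
  have h4 := Finset.card_image_le (s := S.filter fun y => y.1 = x.1) (f := fun y => F y.1 y.2)
  have h5 := Finset.card_image_le (s := S.filter fun y => y.2 = x.2) (f := fun y => F y.1 y.2)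
  have h6 := card_row_compl S x.1
  have h7 := card_col_compl S x.2
  rw [Finset.card_compl, Fintype.card_fin] at h2
  have h8 : (avail S F x).card ≤ k := by
    have := Finset.card_le_univ (avail S F x)
    simpa using this
  omega

/-- `|U| ≤ n (2n - k)` for the set `U` of undefined cells. -/
theorem card_undefined_le (hk : k ≤ 2 * n) (S : Finset (Fin n × Fin n))
    (F : Fin n → Fin n → Fin k) (hF : Forces S F) :
    Sᶜ.card ≤ n * (2 * n - k) := by
  classical
  set U := Sᶜ with hU
  let V := {x // x ∈ U}
  let emb : Fin k ↪ ℚ := ⟨fun a => (a.val : ℚ), by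
    intro a b h
    have h' : (a.val : ℚ) = (b.val : ℚ) := h
    apply Fin.ext
    exact_mod_cast h'⟩
  let L : V → Finset ℚ := fun x => (avail S F x.1).map emb
  let c : V → ℚ := fun x => emb (F x.1.1 x.1.2)
  let E : Finset (V × V) := Finset.univ.filter fun e =>
    (e.1.1.1 = e.2.1.1 ∧ e.1.1.2 < e.2.1.2) ∨ (e.1.1.2 = e.2.1.2 ∧ e.1.1.1 < e.2.1.1)
  have hmemU : ∀ x : Fin n × Fin n, x ∈ U ↔ x ∉ S := by
    intro x; rw [hU]; exact Finset.mem_compl
  have hb := unique_colouring_bound E L c (by
      intro x
      apply Finset.mem_map_of_mem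
      simp only [avail, Finset.mem_filter, Finset.mem_univ, true_and]
      intro y hy hyx heq
      have hne : y ≠ x.1 := fun h => (hmemU x.1).1 x.2 (h ▸ hy)
      rcases hyx with h | h
      · apply hne
        have h' := heq
        rw [h] at h'
        exact Prod.ext h (hF.1.1 _ h')
      · apply hne
        have h' := heq
        rw [h] at h'
        exact Prod.ext (hF.1.2 _ h') h) (by
      intro e he heq
      have heq' := emb.injective heq
      simp only [E, Finset.mem_filter, Finset.mem_univ, true_and] at he
      rcases he with ⟨h1, h2⟩ | ⟨h1, h2⟩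
      · rw [h1] at heq'
        exact h2.ne (hF.1.1 _ heq')
      · rw [h1] at heq'
        exact h2.ne (hF.1.2 _ heq')) (by
      intro c' hc' hE'
      -- decode
      have hdec : ∀ x : V, ∃ a : Fin k, a ∈ avail S F x.1 ∧ emb a = c' x := by
        intro x
        obtain ⟨a, ha, ha2⟩ := Finset.mem_map.1 (hc' x)
        exact ⟨a, ha, ha2⟩
      choose g hg1 hg2 using hdec
      let G : Fin n → Fin n → Fin k := fun i j =>
        if h : (i, j) ∈ U then g ⟨(i, j), h⟩ else F i j
      have hGU : ∀ (i j) (h : (i, j) ∈ U), G i j = g ⟨(i, j), h⟩ := by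
        intro i j h; simp only [G, dif_pos h]
      have hGS : ∀ (i j) (_ : (i, j) ∉ U), G i j = F i j := by
        intro i j h; simp only [G, dif_neg h]
      have hG : Proper G := by
        constructor
        · intro i j j' hjj
          by_contra hne
          by_cases h1 : (i, j) ∈ U <;> by_cases h2 : (i, j') ∈ U
          · rw [hGU _ _ h1, hGU _ _ h2] at hjj
            rcases lt_or_gt_of_ne hne with hlt | hlt
            · apply hE' (⟨(i, j), h1⟩, ⟨(i, j'), h2⟩)
              · simp only [E, Finset.mem_filter, Finset.mem_univ, true_and]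
                exact Or.inl hlt
              · show c' _ = c' _
                rw [← hg2, ← hg2, hjj]
            · apply hE' (⟨(i, j'), h2⟩, ⟨(i, j), h1⟩)
              · simp only [E, Finset.mem_filter, Finset.mem_univ, true_and]
                exact Or.inl hlt
              · show c' _ = c' _
                rw [← hg2, ← hg2, hjj]
          · rw [hGU _ _ h1, hGS _ _ h2] at hjj
            have h3 := hg1 ⟨(i, j), h1⟩
            simp only [avail, Finset.mem_filter, Finset.mem_univ, true_and] at h3
            have h4 : (i, j') ∈ S := by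
              by_contra h; exact h2 ((hmemU _).2 h)
            exact h3 (i, j') h4 (Or.inl rfl) hjj.symm
          · rw [hGS _ _ h1, hGU _ _ h2] at hjj
            have h3 := hg1 ⟨(i, j'), h2⟩
            simp only [avail, Finset.mem_filter, Finset.mem_univ, true_and] at h3
            have h4 : (i, j) ∈ S := by
              by_contra h; exact h1 ((hmemU _).2 h)
            exact h3 (i, j) h4 (Or.inl rfl) hjj
          · rw [hGS _ _ h1, hGS _ _ h2] at hjj
            exact hne (hF.1.1 _ hjj)
        · intro j i i' hii
          change G i j = G i' j at hii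
          by_contra hne
          by_cases h1 : (i, j) ∈ U <;> by_cases h2 : (i', j) ∈ U
          · rw [hGU _ _ h1, hGU _ _ h2] at hii
            rcases lt_or_gt_of_ne hne with hlt | hlt
            · apply hE' (⟨(i, j), h1⟩, ⟨(i', j), h2⟩)
              · simp only [E, Finset.mem_filter, Finset.mem_univ, true_and]
                exact Or.inr hlt
              · show c' _ = c' _
                rw [← hg2, ← hg2, hii]
            · apply hE' (⟨(i', j), h2⟩, ⟨(i, j), h1⟩)
              · simp only [E, Finset.mem_filter, Finset.mem_univ, true_and]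
                exact Or.inr hlt
              · show c' _ = c' _
                rw [← hg2, ← hg2, hii]
          · rw [hGU _ _ h1, hGS _ _ h2] at hii
            have h3 := hg1 ⟨(i, j), h1⟩
            simp only [avail, Finset.mem_filter, Finset.mem_univ, true_and] at h3
            have h4 : (i', j) ∈ S := by
              by_contra h; exact h2 ((hmemU _).2 h)
            exact h3 (i', j) h4 (Or.inr rfl) hii.symm
          · rw [hGS _ _ h1, hGU _ _ h2] at hii
            have h3 := hg1 ⟨(i', j), h2⟩
            simp only [avail, Finset.mem_filter, Finset.mem_univ, true_and] at h3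
            have h4 : (i, j) ∈ S := by
              by_contra h; exact h1 ((hmemU _).2 h)
            exact h3 (i, j) h4 (Or.inr rfl) hii
          · rw [hGS _ _ h1, hGS _ _ h2] at hii
            exact hne (hF.1.2 _ hii)
      have hGF := hF.2 G hG (by
        intro x hx
        apply hGS
        intro h
        exact (hmemU _).1 h hx)
      funext x
      show c' x = emb (F x.1.1 x.1.2)
      rw [← hGF, hGU x.1.1 x.1.2 x.2, ← hg2])
  -- the number of edges
  set A : ℤ := ∑ x ∈ U, ((U.filter fun y => y.1 = x.1).card : ℤ) with hA
  set B : ℤ := ∑ x ∈ U, ((U.filter fun y => y.2 = x.2).card : ℤ) with hB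
  have hE : 2 * (E.card : ℤ) ≤ A + B - 2 * U.card := by
    let E1 : Finset (V × V) := Finset.univ.filter fun e => e.1.1.1 = e.2.1.1 ∧ e.1.1.2 < e.2.1.2
    let E2 : Finset (V × V) := Finset.univ.filter fun e => e.1.1.2 = e.2.1.2 ∧ e.1.1.1 < e.2.1.1
    have hE12 : E.card ≤ E1.card + E2.card := by
      have : E ⊆ E1 ∪ E2 := by
        intro e he
        simp only [E, E1, E2, Finset.mem_filter, Finset.mem_univ, true_and,
          Finset.mem_union] at he ⊢
        exact he
      exact (Finset.card_le_card this).trans (Finset.card_union_le _ _)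
    have hcV : Fintype.card V = U.card := Fintype.card_coe U
    have e1 : 2 * E1.card + U.card ≤ (Finset.univ.filter fun e : V × V => e.1.1.1 = e.2.1.1).card := by
      let D : Finset (V × V) := Finset.univ.map ⟨fun x : V => (x, x), fun a b h => (Prod.mk.inj h).1⟩
      let E1' : Finset (V × V) := E1.map (Equiv.prodComm V V).toEmbedding
      have hD : D.card = U.card := by
        rw [Finset.card_map, Finset.card_univ, hcV]
      have hE1' : E1'.card = E1.card := Finset.card_map _
      have hd1 : Disjoint E1 E1' := by
        rw [Finset.disjoint_left]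
        intro e he he'
        simp only [E1', E1, Finset.mem_map_equiv, Finset.mem_filter, Finset.mem_univ,
          true_and, Equiv.prodComm_symm, Equiv.prodComm_apply, Prod.fst_swap, Prod.snd_swap] at he he'
        exact absurd he.2 (not_lt.2 he'.2.le)
      have hd2 : Disjoint (E1 ∪ E1') D := by
        rw [Finset.disjoint_left]
        intro e he he'
        simp only [D, Finset.mem_map, Finset.mem_univ, true_and, Function.Embedding.coeFn_mk] at he'
        obtain ⟨x, rfl⟩ := he'
        simp only [E1', E1, Finset.mem_union, Finset.mem_map_equiv, Finset.mem_filter,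
          Finset.mem_univ, true_and, Equiv.prodComm_symm, Equiv.prodComm_apply, Prod.fst_swap,
          Prod.snd_swap, lt_self_iff_false, and_false, or_self] at he
      have : (E1 ∪ E1') ∪ D ⊆ Finset.univ.filter fun e : V × V => e.1.1.1 = e.2.1.1 := by
        intro e he
        simp only [D, E1', E1, Finset.mem_union, Finset.mem_map_equiv, Finset.mem_filter,
          Finset.mem_univ, true_and, Equiv.prodComm_symm, Equiv.prodComm_apply, Prod.fst_swap,
          Prod.snd_swap, Finset.mem_map, Function.Embedding.coeFn_mk] at he ⊢
        rcases he with (h | ⟨a, h, rfl⟩) | ⟨x, rfl⟩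
        · exact h.1
        · exact h.1.symm
        · rfl
      have h9 := Finset.card_le_card this
      rw [Finset.card_union_of_disjoint hd2, Finset.card_union_of_disjoint hd1, hE1', hD] at h9
      omega
    have e2 : 2 * E2.card + U.card ≤ (Finset.univ.filter fun e : V × V => e.1.1.2 = e.2.1.2).card := by
      let D : Finset (V × V) := Finset.univ.map ⟨fun x : V => (x, x), fun a b h => (Prod.mk.inj h).1⟩
      let E1' : Finset (V × V) := E2.map (Equiv.prodComm V V).toEmbedding
      have hD : D.card = U.card := by
        rw [Finset.card_map, Finset.card_univ, hcV]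
      have hE1' : E1'.card = E2.card := Finset.card_map _
      have hd1 : Disjoint E2 E1' := by
        rw [Finset.disjoint_left]
        intro e he he'
        simp only [E1', E2, Finset.mem_map_equiv, Finset.mem_filter, Finset.mem_univ,
          true_and, Equiv.prodComm_symm, Equiv.prodComm_apply, Prod.fst_swap, Prod.snd_swap] at he he'
        exact absurd he.2 (not_lt.2 he'.2.le)
      have hd2 : Disjoint (E2 ∪ E1') D := by
        rw [Finset.disjoint_left]
        intro e he he'
        simp only [D, Finset.mem_map, Finset.mem_univ, true_and, Function.Embedding.coeFn_mk] at he'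
        obtain ⟨x, rfl⟩ := he'
        simp only [E1', E2, Finset.mem_union, Finset.mem_map_equiv, Finset.mem_filter,
          Finset.mem_univ, true_and, Equiv.prodComm_symm, Equiv.prodComm_apply, Prod.fst_swap,
          Prod.snd_swap, lt_self_iff_false, and_false, or_self] at he
      have : (E2 ∪ E1') ∪ D ⊆ Finset.univ.filter fun e : V × V => e.1.1.2 = e.2.1.2 := by
        intro e he
        simp only [D, E1', E2, Finset.mem_union, Finset.mem_map_equiv, Finset.mem_filter,
          Finset.mem_univ, true_and, Equiv.prodComm_symm, Equiv.prodComm_apply, Prod.fst_swap,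
          Prod.snd_swap, Finset.mem_map, Function.Embedding.coeFn_mk] at he ⊢
        rcases he with (h | ⟨a, h, rfl⟩) | ⟨x, rfl⟩
        · exact h.1
        · exact h.1.symm
        · rfl
      have h9 := Finset.card_le_card this
      rw [Finset.card_union_of_disjoint hd2, Finset.card_union_of_disjoint hd1, hE1', hD] at h9
      omega
    have hAc : ((Finset.univ.filter fun e : V × V => e.1.1.1 = e.2.1.1).card : ℤ) = A := by
      have h1 : (Finset.univ.filter fun e : V × V => e.1.1.1 = e.2.1.1).card
          = ∑ x : V, (Finset.univ.filter fun y : V => x.1.1 = y.1.1).card := by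
        rw [Finset.card_filter, Fintype.sum_prod_type]
        apply Finset.sum_congr rfl
        intro x _
        rw [Finset.card_filter]
      rw [h1, hA]
      push_cast
      rw [← Finset.sum_coe_sort U]
      apply Finset.sum_congr rfl
      intro x _
      congr 1
      rw [← Finset.card_map (Function.Embedding.subtype (· ∈ U))]
      congr 1
      ext y
      simp only [Finset.mem_map, Finset.mem_filter, Finset.mem_univ, true_and,
        Function.Embedding.subtype_apply, Subtype.exists, exists_and_left, exists_prop]
      constructor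
      · rintro ⟨a, h1, h2, rfl⟩; exact ⟨h2, h1.symm⟩
      · rintro ⟨h1, h2⟩; exact ⟨y, h2.symm, h1, rfl⟩
    have hBc : ((Finset.univ.filter fun e : V × V => e.1.1.2 = e.2.1.2).card : ℤ) = B := by
      have h1 : (Finset.univ.filter fun e : V × V => e.1.1.2 = e.2.1.2).card
          = ∑ x : V, (Finset.univ.filter fun y : V => x.1.2 = y.1.2).card := by
        rw [Finset.card_filter, Fintype.sum_prod_type]
        apply Finset.sum_congr rfl
        intro x _
        rw [Finset.card_filter]
      rw [h1, hB]
      push_cast
      rw [← Finset.sum_coe_sort U]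
      apply Finset.sum_congr rfl
      intro x _
      congr 1
      rw [← Finset.card_map (Function.Embedding.subtype (· ∈ U))]
      congr 1
      ext y
      simp only [Finset.mem_map, Finset.mem_filter, Finset.mem_univ, true_and,
        Function.Embedding.subtype_apply, Subtype.exists, exists_and_left, exists_prop]
      constructor
      · rintro ⟨a, h1, h2, rfl⟩; exact ⟨h2, h1.symm⟩
      · rintro ⟨h1, h2⟩; exact ⟨y, h2.symm, h1, rfl⟩
    rw [← hAc, ← hBc]
    omega
  -- the lists
  have hL : (U.card : ℤ) * (k - 2 * n - 1) + A + B ≤ ∑ x : V, (((L x).card - 1 : ℕ) : ℤ) := by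
    have h1 : ∀ x : V, (k : ℤ) - 2 * n - 1 + (U.filter fun y => y.1 = x.1.1).card
        + (U.filter fun y => y.2 = x.1.2).card ≤ (((L x).card - 1 : ℕ) : ℤ) := by
      intro x
      have h2 := card_avail S F x.1
      have h3 : (L x).card = (avail S F x.1).card := Finset.card_map _
      rw [h3]
      rw [← hU] at h2
      omega
    calc (U.card : ℤ) * (k - 2 * n - 1) + A + B
        = ∑ x ∈ U, ((k : ℤ) - 2 * n - 1 + (U.filter fun y => y.1 = x.1).card
        + (U.filter fun y => y.2 = x.2).card) := by
          rw [Finset.sum_add_distrib, Finset.sum_add_distrib, Finset.sum_const, nsmul_eq_mul]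
      _ = ∑ x : V, ((k : ℤ) - 2 * n - 1 + (U.filter fun y => y.1 = x.1.1).card
        + (U.filter fun y => y.2 = x.1.2).card) := by
          rw [← Finset.sum_coe_sort U]
      _ ≤ _ := Finset.sum_le_sum fun x _ => h1 x
  have hb' : (∑ x : V, (((L x).card - 1 : ℕ) : ℤ)) ≤ E.card := by exact_mod_cast hb
  have hAs := sum_row_sq U
  have hBs := sum_col_sq U
  rw [← hA] at hAs
  rw [← hB] at hBs
  have hfin : (U.card : ℤ) ≤ n * (2 * n - k) := by
    rcases Nat.eq_zero_or_pos U.card with h0 | hpos
    · rw [h0]
      have : (0 : ℤ) ≤ 2 * n - k := by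
        have : (k : ℤ) ≤ 2 * n := by exact_mod_cast hk
        linarith
      positivity
    have hpos' : (0 : ℤ) < U.card := by exact_mod_cast hpos
    have h1 : A + B ≤ 2 * U.card * (2 * n - k) := by nlinarith
    have h2 : 2 * (U.card : ℤ) ^ 2 ≤ n * (2 * U.card * (2 * n - k)) := by
      have hn0 : (0 : ℤ) ≤ n := by positivity
      nlinarith [mul_le_mul_of_nonneg_left h1 hn0]
    have h3 : (U.card : ℤ) * U.card ≤ U.card * (n * (2 * n - k)) := by nlinarith
    exact le_of_mul_le_mul_left h3 hpos'
  zify [hk]
  push_cast
  exact hfin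

theorem general_lower (hnk : n ≤ k) (hk : k ≤ 2 * n) :
    n * (k - n) ≤ definingNumber (grid n) k := by
  obtain ⟨S, F, hF, hS⟩ := exists_forces hnk
  rw [← hS]
  have h1 := card_undefined_le hk S F hF
  rw [Finset.card_compl, Fintype.card_prod, Fintype.card_fin] at h1
  have h2 : n * (k - n) + n * (2 * n - k) = n * n := by
    rw [← Nat.mul_add]
    congr 1
    omega
  omega

end Pool.Agent.Helper33.DefNum
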