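import Pool.Agent.Helper33.DefNum.Array

/-!
# Local structure of the undefined cells when `k = 2n - 2`
-/

namespace Pool.Agent.Helper33.DefNum

open Finset

/-- colour `a` occurs in row `i` -/
def Rw {R C K : Type*} (F : R → C → K) (i : R) (a : K) : Prop := ∃ j, F i j = a

/-- colour `a` occurs in column `j` -/
def Cl {R C K : Type*} (F : R → C → K) (j : C) (a : K) : Prop := ∃ i, F i j = a

structure Tight {R C K : Type*} (U : R → C → Prop) (F : R → C → K) : Prop where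
  rinj : ∀ i j j', F i j = F i j' → j = j'
  cinj : ∀ j i i', F i j = F i' j → i = i'
  uniq : ∀ G : R → C → K, (∀ i j j', G i j = G i j' → j = j') →
    (∀ j i i', G i j = G i' j → i = i') → (∀ i j, ¬ U i j → G i j = F i j) →
    ∀ i j, G i j = F i j
  two : ∀ i j, U i j → ∀ a b, Rw F i a → Cl F j a → Rw F i b → Cl F j b →
    a ≠ F i j → b ≠ F i j → a = b
  cover : ∀ i j, U i j → ∀ a, Rw F i a ∨ Cl F j a

theorem Tight.transpose {R C K : Type*} {U : R → C → Prop} {F : R → C → K} (h : Tight U F) :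
    Tight (fun j i => U i j) (fun j i => F i j) where
  rinj := h.cinj
  cinj := h.rinj
  uniq := fun G h1 h2 h3 j i => h.uniq (fun i j => G j i) h2 h1 (fun i j => h3 j i) i j
  two := fun j i hU a b h1 h2 h3 h4 h5 h6 => h.two i j hU a b h2 h1 h4 h3 h5 h6
  cover := fun j i hU a => (h.cover i j hU a).symm

section
variable {R C K : Type*} [DecidableEq R] [DecidableEq C] {U : R → C → Prop} {F : R → C → K}

theorem Tight.f2 (h : Tight U F) {i : R} {j j' : C} (h1 : U i j) (h2 : U i j') (_hne : j ≠ j') :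
    Cl F j (F i j') ∨ Cl F j' (F i j) := by
  by_contra hcon
  push Not at hcon
  obtain ⟨hc1, hc2⟩ := hcon
  have hc1' : ∀ i', F i' j ≠ F i j' := fun i' h => hc1 ⟨i', h⟩
  have hc2' : ∀ i', F i' j' ≠ F i j := fun i' h => hc2 ⟨i', h⟩
  have hr := h.rinj
  have hc := h.cinj
  have := h.uniq (fun a b => if a = i ∧ b = j then F i j' else if a = i ∧ b = j' then F i j
    else F a b) (by intro a b b'; grind) (by intro b a a'; grind) (by intro a b; grind) i j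
  grind

theorem Tight.f3 (h : Tight U F) {i i' : R} {j j' : C} (h1 : U i j) (h2 : U i j') (h3 : U i' j)
    (hj : j ≠ j') (hi : i ≠ i') :
    Cl F j' (F i j) ∨ Rw F i' (F i j) := by
  by_contra hcon
  push Not at hcon
  obtain ⟨hc1, hc2⟩ := hcon
  have p1 : Cl F j (F i j') := (h.f2 h1 h2 hj).resolve_right hc1
  have p2 : Rw F i (F i' j) := (h.transpose.f2 (i := j) (j := i) (j' := i') h1 h3 hi).resolve_right hc2
  have hr := h.rinj
  have hc := h.cinj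
  have heq : F i j' = F i' j := h.two i j h1 _ _ ⟨j', rfl⟩ p1 p2 ⟨i', rfl⟩
    (fun e => hj (hr _ _ _ e).symm) (fun e => hi (hc _ _ _ e).symm)
  have hc1' : ∀ a, F a j' ≠ F i j := fun i' h => hc1 ⟨i', h⟩
  have hc2' : ∀ a, F i' a ≠ F i j := fun i' h => hc2 ⟨i', h⟩
  have := h.uniq (fun a b => if a = i ∧ b = j then F i j' else if a = i ∧ b = j' then F i j
    else if a = i' ∧ b = j then F i j else F a b) (by intro a b b'; grind) (by intro b a a'; grind)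
    (by intro a b; grind) i j
  grind

/-- No three undefined cells in a row. -/
theorem Tight.g1 (h : Tight U F) {i : R} {j1 j2 j3 : C} (h1 : U i j1) (h2 : U i j2) (h3 : U i j3)
    (h12 : j1 ≠ j2) (h13 : j1 ≠ j3) (h23 : j2 ≠ j3) : False := by
  have hr := h.rinj
  have hc := h.cinj
  have rot : ∀ k1 k2 k3 : C, U i k1 → U i k2 → U i k3 → k1 ≠ k2 → k1 ≠ k3 → k2 ≠ k3 →
      Cl F k1 (F i k2) → Cl F k2 (F i k3) → Cl F k3 (F i k1) → False := by
    intro k1 k2 k3 u1 u2 u3 n12 n13 n23 c12 c23 c31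
    have d1 : ¬ Cl F k1 (F i k3) := fun e => n23 (hr i _ _ (h.two i k1 u1 _ _ ⟨k2, rfl⟩ c12 ⟨k3, rfl⟩ e
      (fun e => n12 (hr _ _ _ e).symm) (fun e => n13 (hr _ _ _ e).symm)))
    have d2 : ¬ Cl F k2 (F i k1) := fun e => n13 (hr i _ _ (h.two i k2 u2 _ _ ⟨k1, rfl⟩ e ⟨k3, rfl⟩ c23
      (fun e => n12 (hr _ _ _ e)) (fun e => n23 (hr _ _ _ e).symm)))
    have d3 : ¬ Cl F k3 (F i k2) := fun e => n12 (hr i _ _ (h.two i k3 u3 _ _ ⟨k1, rfl⟩ c31 ⟨k2, rfl⟩ e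
      (fun e => n13 (hr _ _ _ e)) (fun e => n23 (hr _ _ _ e))))
    have e1 : ∀ a, F a k1 ≠ F i k3 := fun a h => d1 ⟨a, h⟩
    have e2 : ∀ a, F a k2 ≠ F i k1 := fun a h => d2 ⟨a, h⟩
    have e3 : ∀ a, F a k3 ≠ F i k2 := fun a h => d3 ⟨a, h⟩
    have := h.uniq (fun a b => if a = i ∧ b = k1 then F i k3 else if a = i ∧ b = k2 then F i k1
      else if a = i ∧ b = k3 then F i k2 else F a b) (by intro a b b'; grind)
      (by intro b a a'; grind) (by intro a b; grind) i k1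
    grind
  have q12 := h.f2 h1 h2 h12
  have q13 := h.f2 h1 h3 h13
  have q23 := h.f2 h2 h3 h23
  have out1 : ¬ (Cl F j1 (F i j2) ∧ Cl F j1 (F i j3)) := fun ⟨e, e'⟩ =>
    h23 (hr i _ _ (h.two i j1 h1 _ _ ⟨j2, rfl⟩ e ⟨j3, rfl⟩ e'
      (fun e => h12 (hr _ _ _ e).symm) (fun e => h13 (hr _ _ _ e).symm)))
  have out2 : ¬ (Cl F j2 (F i j1) ∧ Cl F j2 (F i j3)) := fun ⟨e, e'⟩ =>
    h13 (hr i _ _ (h.two i j2 h2 _ _ ⟨j1, rfl⟩ e ⟨j3, rfl⟩ e'
      (fun e => h12 (hr _ _ _ e)) (fun e => h23 (hr _ _ _ e).symm)))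
  have out3 : ¬ (Cl F j3 (F i j1) ∧ Cl F j3 (F i j2)) := fun ⟨e, e'⟩ =>
    h12 (hr i _ _ (h.two i j3 h3 _ _ ⟨j1, rfl⟩ e ⟨j2, rfl⟩ e'
      (fun e => h13 (hr _ _ _ e)) (fun e => h23 (hr _ _ _ e))))
  have r1 := rot j1 j2 j3 h1 h2 h3 h12 h13 h23
  have r2 := rot j1 j3 j2 h1 h3 h2 h13 h12 h23.symm
  tauto

theorem inj_of_two {A B : Type*} [DecidableEq A] {f : A → B} (hf : ∀ x y, f x = f y → x = y)
    {p q : A} {a b : B} (hab : a ≠ b) (ha : ∀ x, x ≠ p → x ≠ q → f x ≠ a)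
    (hb : ∀ x, x ≠ p → x ≠ q → f x ≠ b) :
    ∀ x y, (if x = p then a else if x = q then b else f x) =
      (if y = p then a else if y = q then b else f y) → x = y := by
  intro x y
  grind

theorem Tight.uniq4 (h : Tight U F) {i i' : R} {j j' : C} (h1 : U i j) (h2 : U i j')
    (h3 : U i' j') (h4 : U i' j) (hi : i ≠ i') (hj : j ≠ j') (c1 c2 c3 c4 : K)
    (n12 : c1 ≠ c2) (n34 : c3 ≠ c4) (n14 : c1 ≠ c4) (n23 : c2 ≠ c3)
    (r1 : ∀ b, b ≠ j → b ≠ j' → F i b ≠ c1) (r2 : ∀ b, b ≠ j → b ≠ j' → F i b ≠ c2)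
    (r3 : ∀ b, b ≠ j → b ≠ j' → F i' b ≠ c3) (r4 : ∀ b, b ≠ j → b ≠ j' → F i' b ≠ c4)
    (s1 : ∀ a, a ≠ i → a ≠ i' → F a j ≠ c1) (s4 : ∀ a, a ≠ i → a ≠ i' → F a j ≠ c4)
    (s2 : ∀ a, a ≠ i → a ≠ i' → F a j' ≠ c2) (s3 : ∀ a, a ≠ i → a ≠ i' → F a j' ≠ c3) :
    c1 = F i j := by
  have hr := h.rinj
  have hc := h.cinj
  let G : R → C → K := fun a b => if a = i then (if b = j then c1 else if b = j' then c2 else F i b)
    else if a = i' then (if b = j then c4 else if b = j' then c3 else F i' b) else F a b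
  have G1 : ∀ b, G i b = (if b = j then c1 else if b = j' then c2 else F i b) := fun b => if_pos rfl
  have G2 : ∀ b, G i' b = (if b = j then c4 else if b = j' then c3 else F i' b) := fun b => by
    simp only [G, if_neg hi.symm, if_true]
  have G3 : ∀ a b, a ≠ i → a ≠ i' → G a b = F a b := fun a b x y => by
    simp only [G, if_neg x, if_neg y]
  have H1 : ∀ a, G a j = (if a = i then c1 else if a = i' then c4 else F a j) := by
    intro a
    simp only [G, if_true]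
  have H2 : ∀ a, G a j' = (if a = i then c2 else if a = i' then c3 else F a j') := by
    intro a
    simp only [G, if_true, if_neg hj.symm]
  have H3 : ∀ a b, b ≠ j → b ≠ j' → G a b = F a b := by
    intro a b x y
    simp only [G, if_neg x, if_neg y]
    by_cases p : a = i
    · simp only [if_pos p]; rw [p]
    · by_cases q : a = i'
      · simp only [if_neg p, if_pos q]; rw [q]
      · simp only [if_neg p, if_neg q]
  have := h.uniq G (by
    intro a b b' e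
    by_cases p : a = i
    · subst p
      rw [G1, G1] at e
      exact inj_of_two (hr a) n12 r1 r2 _ _ e
    · by_cases q : a = i'
      · subst q
        rw [G2, G2] at e
        exact inj_of_two (hr a) n34.symm r4 r3 _ _ e
      · rw [G3 _ _ p q, G3 _ _ p q] at e
        exact hr _ _ _ e) (by
    intro b a a' e
    by_cases p : b = j
    · subst p
      rw [H1, H1] at e
      exact inj_of_two (hc b) n14 s1 s4 _ _ e
    · by_cases q : b = j'
      · subst q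
        rw [H2, H2] at e
        exact inj_of_two (hc b) n23 s2 s3 _ _ e
      · rw [H3 _ _ p q, H3 _ _ p q] at e
        exact hc _ _ _ e) (by
    intro a b hU
    by_cases p : b = j
    · subst p
      rw [H1]
      by_cases q : a = i
      · subst q; exact absurd h1 hU
      · by_cases r : a = i'
        · subst r; exact absurd h4 hU
        · rw [if_neg q, if_neg r]
    · by_cases q : b = j'
      · subst q
        rw [H2]
        by_cases q : a = i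
        · subst q; exact absurd h2 hU
        · by_cases r : a = i'
          · subst r; exact absurd h3 hU
          · rw [if_neg q, if_neg r]
      · exact H3 _ _ p q) i j
  rw [G1, if_pos rfl] at this
  exact this

/-- No `2 × 2` block of undefined cells. -/
theorem Tight.g2 (h : Tight U F) {i i' : R} {j j' : C} (h1 : U i j) (h2 : U i j') (h3 : U i' j')
    (h4 : U i' j) (hi : i ≠ i') (hj : j ≠ j') : False := by
  have hr := h.rinj
  have hc := h.cinj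
  have ht := h.transpose
  -- cells x1 = (i,j), x2 = (i,j'), x3 = (i',j'), x4 = (i',j)
  have rot : ∀ (j j' : C), U i j → U i j' → U i' j' → U i' j → j ≠ j' →
      ¬ Rw F i (F i' j) → ¬ Cl F j' (F i j) → ¬ Rw F i' (F i j') → ¬ Cl F j (F i' j') → False := by
    intro j j' h1 h2 h3 h4 hj c1 c2 c3 c4
    have e1 : ∀ a, F i a ≠ F i' j := fun a h => c1 ⟨a, h⟩
    have e2 : ∀ a, F a j' ≠ F i j := fun a h => c2 ⟨a, h⟩
    have e3 : ∀ a, F i' a ≠ F i j' := fun a h => c3 ⟨a, h⟩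
    have e4 : ∀ a, F a j ≠ F i' j' := fun a h => c4 ⟨a, h⟩
    have := h.uniq4 h1 h2 h3 h4 hi hj (F i' j) (F i j) (F i j') (F i' j')
      (fun e => hi (hc _ _ _ e).symm) (fun e => hi (hc _ _ _ e)) (fun e => hj (hr _ _ _ e))
      (fun e => hj (hr _ _ _ e)) (fun b _ _ => e1 b) (fun b x _ e => x (hr _ _ _ e))
      (fun b _ _ => e3 b) (fun b _ y e => y (hr _ _ _ e)) (fun a _ y e => y (hc _ _ _ e))
      (fun a _ _ => e4 a) (fun a _ _ => e2 a) (fun a x _ e => x (hc _ _ _ e))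
    exact hi (hc _ _ _ this).symm
  have both : F i j = F i' j' → F i j' = F i' j → False := by
    intro e13 e24
    have := h.uniq4 h1 h2 h3 h4 hi hj (F i j') (F i j) (F i j') (F i j)
      (fun e => hj (hr _ _ _ e).symm) (fun e => hj (hr _ _ _ e).symm)
      (fun e => hj (hr _ _ _ e).symm) (fun e => hj (hr _ _ _ e))
      (fun b _ y e => y (hr _ _ _ e)) (fun b x _ e => x (hr _ _ _ e))
      (fun b x _ e => x (hr _ _ _ (e.trans e24))) (fun b _ y e => y (hr _ _ _ (e.trans e13)))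
      (fun a _ y e => y (hc _ _ _ (e.trans e24))) (fun a x _ e => x (hc _ _ _ e))
      (fun a _ y e => y (hc _ _ _ (e.trans e13))) (fun a x _ e => x (hc _ _ _ e))
    exact hj (hr _ _ _ this).symm
  have one : ∀ (j j' : C), U i j → U i j' → U i' j' → U i' j → j ≠ j' →
      F i j = F i' j' → F i j' ≠ F i' j → False := by
    intro j j' h1 h2 h3 h4 hj e13 n24
    have t2 := h.f3 (i := i) (i' := i') (j := j') (j' := j) h2 h1 h3 hj.symm hi
    have t4 := h.f3 (i := i') (i' := i) (j := j) (j' := j') h4 h3 h1 hj hi.symm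
    -- t2 : Cl F j (F i j') ∨ Rw F i' (F i j') ; t4 : Cl F j' (F i' j) ∨ Rw F i (F i' j)
    have o1 : ¬ (Cl F j (F i j') ∧ Rw F i (F i' j)) := fun ⟨e, e'⟩ =>
      n24 (h.two i j h1 _ _ ⟨j', rfl⟩ e e' ⟨i', rfl⟩ (fun e => hj (hr _ _ _ e).symm)
        (fun e => hi (hc _ _ _ e).symm))
    have o3 : ¬ (Rw F i' (F i j') ∧ Cl F j' (F i' j)) := fun ⟨e, e'⟩ =>
      n24 (h.two i' j' h3 _ _ e ⟨i, rfl⟩ ⟨j, rfl⟩ e' (fun e => hi (hc _ _ _ e))
        (fun e => hj (hr _ _ _ e)))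
    have cases : (¬ Rw F i (F i' j) ∧ ¬ Rw F i' (F i j')) ∨ (¬ Cl F j (F i j') ∧ ¬ Cl F j' (F i' j)) := by
      tauto
    rcases cases with ⟨d1, d3⟩ | ⟨d1, d3⟩
    · have e1 : ∀ a, F i a ≠ F i' j := fun a h => d1 ⟨a, h⟩
      have e3 : ∀ a, F i' a ≠ F i j' := fun a h => d3 ⟨a, h⟩
      have := h.uniq4 h1 h2 h3 h4 hi hj (F i' j) (F i j) (F i j') (F i j)
        (fun e => hi (hc _ _ _ e).symm) (fun e => hj (hr _ _ _ e).symm)
        (fun e => hi (hc _ _ _ e).symm) (fun e => hj (hr _ _ _ e))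
        (fun b _ _ => e1 b) (fun b x _ e => x (hr _ _ _ e))
        (fun b _ _ => e3 b) (fun b _ y e => y (hr _ _ _ (e.trans e13)))
        (fun a _ y e => y (hc _ _ _ e)) (fun a x _ e => x (hc _ _ _ e))
        (fun a _ y e => y (hc _ _ _ (e.trans e13))) (fun a x _ e => x (hc _ _ _ e))
      exact hi (hc _ _ _ this).symm
    · have e1 : ∀ a, F a j ≠ F i j' := fun a h => d1 ⟨a, h⟩
      have e3 : ∀ a, F a j' ≠ F i' j := fun a h => d3 ⟨a, h⟩
      have := h.uniq4 h1 h2 h3 h4 hi hj (F i j') (F i j) (F i' j) (F i j)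
        (fun e => hj (hr _ _ _ e).symm) (fun e => hi (hc _ _ _ e).symm)
        (fun e => hj (hr _ _ _ e).symm) (fun e => hi (hc _ _ _ e))
        (fun b _ y e => y (hr _ _ _ e)) (fun b x _ e => x (hr _ _ _ e))
        (fun b x _ e => x (hr _ _ _ e)) (fun b _ y e => y (hr _ _ _ (e.trans e13)))
        (fun a _ _ => e1 a) (fun a x _ e => x (hc _ _ _ e))
        (fun a _ y e => y (hc _ _ _ (e.trans e13))) (fun a _ _ => e3 a)
      exact hj (hr _ _ _ this).symm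
  by_cases e13 : F i j = F i' j'
  · by_cases e24 : F i j' = F i' j
    · exact both e13 e24
    · exact one j j' h1 h2 h3 h4 hj e13 e24
  · by_cases e24 : F i j' = F i' j
    · exact one j' j h2 h1 h4 h3 hj.symm e24 e13
    · -- all distinct
      have q12 : Cl F j (F i j') ∨ Cl F j' (F i j) := h.f2 h1 h2 hj
      have q34 : Cl F j (F i' j') ∨ Cl F j' (F i' j) := h.f2 h4 h3 hj
      have q14 : Rw F i (F i' j) ∨ Rw F i' (F i j) := ht.f2 (i := j) (j := i) (j' := i') h1 h4 hi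
      have q23 : Rw F i (F i' j') ∨ Rw F i' (F i j') := ht.f2 (i := j') (j := i) (j' := i') h2 h3 hi
      have o1 : ¬ (Cl F j (F i j') ∧ Rw F i (F i' j)) := fun ⟨e, e'⟩ =>
        e24 (h.two i j h1 _ _ ⟨j', rfl⟩ e e' ⟨i', rfl⟩ (fun e => hj (hr _ _ _ e).symm)
          (fun e => hi (hc _ _ _ e).symm))
      have o3 : ¬ (Rw F i' (F i j') ∧ Cl F j' (F i' j)) := fun ⟨e, e'⟩ =>
        e24 (h.two i' j' h3 _ _ e ⟨i, rfl⟩ ⟨j, rfl⟩ e' (fun e => hi (hc _ _ _ e))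
          (fun e => hj (hr _ _ _ e)))
      have o2 : ¬ (Cl F j' (F i j) ∧ Rw F i (F i' j')) := fun ⟨e, e'⟩ =>
        e13 (h.two i j' h2 _ _ ⟨j, rfl⟩ e e' ⟨i', rfl⟩ (fun e => hj (hr _ _ _ e))
          (fun e => hi (hc _ _ _ e).symm))
      have o4 : ¬ (Rw F i' (F i j) ∧ Cl F j (F i' j')) := fun ⟨e, e'⟩ =>
        e13 (h.two i' j h4 _ _ e ⟨i, rfl⟩ ⟨j', rfl⟩ e' (fun e => hi (hc _ _ _ e))
          (fun e => hj (hr _ _ _ e).symm))
      have r1 := rot j j' h1 h2 h3 h4 hj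
      have r2 := rot j' j h2 h1 h4 h3 hj.symm
      tauto

/-- Lemma L1: a path `x1, x2, x3, x4` has not both `x1 → x2` and `x3 → x4`. -/
theorem Tight.l1 (h : Tight U F) {i0 i1 i2 : R} {j0 j1 : C}
    (h1 : U i0 j0) (h2 : U i1 j0) (h3 : U i1 j1) (h4 : U i2 j1)
    (hi01 : i0 ≠ i1) (hi12 : i1 ≠ i2) (hi02 : i0 ≠ i2) (hj : j0 ≠ j1)
    (a1 : Rw F i0 (F i1 j0)) (a3 : Rw F i1 (F i2 j1)) : False := by
  have hr := h.rinj
  have hc := h.cinj
  have w01 : ∀ a, Rw F i0 a → Cl F j0 a → a ≠ F i0 j0 → a = F i1 j0 := fun a x y z =>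
    h.two i0 j0 h1 _ _ x y a1 ⟨i1, rfl⟩ z (fun e => hi01 (hc _ _ _ e).symm)
  have w23 : ∀ a, Rw F i1 a → Cl F j1 a → a ≠ F i1 j1 → a = F i2 j1 := fun a x y z =>
    h.two i1 j1 h3 _ _ x y a3 ⟨i2, rfl⟩ z (fun e => hi12 (hc _ _ _ e).symm)
  have z0 : Rw F i0 (F i0 j1) := ⟨j1, rfl⟩
  have z3 : Cl F j1 (F i0 j1) := ⟨i0, rfl⟩
  have n1 : F i0 j1 ≠ F i0 j0 := fun e => hj (hr _ _ _ e).symm
  have n3 : F i0 j1 ≠ F i1 j1 := fun e => hi01 (hc _ _ _ e)
  have n4 : F i0 j1 ≠ F i2 j1 := fun e => hi02 (hc _ _ _ e)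
  rcases h.cover i1 j0 h2 (F i0 j1) with hz | hz
  · exact n4 (w23 _ hz z3 n3)
  · have e := w01 _ z0 hz n1
    have hz' : Rw F i1 (F i0 j1) := ⟨j0, e.symm⟩
    exact n4 (w23 _ hz' z3 n3)

/-- Lemma L2. -/
theorem Tight.l2 (h : Tight U F) {i0 i1 i2 : R} {j0 j1 j2 : C}
    (h1 : U i0 j0) (h2 : U i1 j0) (h3 : U i1 j1) (h4 : U i2 j1) (h5 : U i2 j2)
    (hi01 : i0 ≠ i1) (hi12 : i1 ≠ i2) (hi02 : i0 ≠ i2)
    (hj01 : j0 ≠ j1) (hj12 : j1 ≠ j2) (hj02 : j0 ≠ j2)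
    (a1 : Rw F i0 (F i1 j0)) (a2 : Cl F j0 (F i1 j1)) (b4 : Rw F i2 (F i1 j1))
    (b5 : Cl F j2 (F i2 j1)) : False := by
  have hr := h.rinj
  have hc := h.cinj
  have w01 : ∀ a, Rw F i0 a → Cl F j0 a → a ≠ F i0 j0 → a = F i1 j0 := fun a x y z =>
    h.two i0 j0 h1 _ _ x y a1 ⟨i1, rfl⟩ z (fun e => hi01 (hc _ _ _ e).symm)
  have w45 : ∀ a, Rw F i2 a → Cl F j2 a → a ≠ F i2 j2 → a = F i2 j1 := fun a x y z =>
    h.two i2 j2 h5 _ _ x y ⟨j1, rfl⟩ b5 z (fun e => hj12 (hr _ _ _ e))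
  have w23 : ∀ a b, Rw F i1 a → Cl F j1 a → a ≠ F i1 j1 → Rw F i1 b → Cl F j1 b → b ≠ F i1 j1 →
      a = b := fun a b x y z x' y' z' => h.two i1 j1 h3 _ _ x y x' y' z z'
  -- z = (i0, j1)
  have z0 : Rw F i0 (F i0 j1) := ⟨j1, rfl⟩
  have z3 : Cl F j1 (F i0 j1) := ⟨i0, rfl⟩
  have zr : Rw F i1 (F i0 j1) := by
    rcases h.cover i1 j0 h2 (F i0 j1) with hz | hz
    · exact hz
    · exact ⟨j0, (w01 _ z0 hz (fun e => hj01 (hr _ _ _ e).symm)).symm⟩
  have zn : F i0 j1 ≠ F i1 j1 := fun e => hi01 (hc _ _ _ e)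
  -- z' = (i1, j2)
  have y0 : Rw F i1 (F i1 j2) := ⟨j2, rfl⟩
  have y3 : Cl F j2 (F i1 j2) := ⟨i1, rfl⟩
  have yc : Cl F j1 (F i1 j2) := by
    rcases h.cover i2 j1 h4 (F i1 j2) with hz | hz
    · exact ⟨i2, (w45 _ hz y3 (fun e => hi12 (hc _ _ _ e))).symm⟩
    · exact hz
  have yn : F i1 j2 ≠ F i1 j1 := fun e => hj12 (hr _ _ _ e).symm
  have yz : F i1 j2 = F i0 j1 := w23 _ _ y0 yc yn zr z3 zn
  -- g = (i0, j2)
  have g0 : Rw F i0 (F i0 j2) := ⟨j2, rfl⟩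
  have g5 : Cl F j2 (F i0 j2) := ⟨i0, rfl⟩
  have gn1 : F i0 j2 ≠ F i0 j0 := fun e => hj02 (hr _ _ _ e).symm
  have gn5 : F i0 j2 ≠ F i2 j2 := fun e => hi02 (hc _ _ _ e)
  have gz : F i0 j2 ≠ F i0 j1 := fun e => hj12 (hr _ _ _ e).symm
  have gy : F i0 j2 ≠ F i1 j2 := fun e => hi01 (hc _ _ _ e)
  -- not both in row i1 and column j1
  have key : Rw F i1 (F i0 j2) → Cl F j1 (F i0 j2) → F i0 j2 = F i1 j1 := by
    intro p q
    by_contra hne
    exact gz (w23 _ _ p q hne zr z3 zn)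
  by_cases gw1 : Cl F j0 (F i0 j2)
  · have e1 := w01 _ g0 gw1 gn1
    by_cases gw4 : Rw F i2 (F i0 j2)
    · have e2 := w45 _ gw4 g5 gn5
      have e3 := key ⟨j0, e1.symm⟩ ⟨i2, e2.symm⟩
      exact hi12 (hc j1 _ _ (e3.symm.trans e2))
    · have hc1 : Cl F j1 (F i0 j2) := (h.cover i2 j1 h4 _).resolve_left gw4
      have e3 := key ⟨j0, e1.symm⟩ hc1
      exact hj01 (hr i1 _ _ (e1.symm.trans e3))
  · have hr1 : Rw F i1 (F i0 j2) := (h.cover i1 j0 h2 _).resolve_right gw1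
    by_cases gw4 : Rw F i2 (F i0 j2)
    · have e2 := w45 _ gw4 g5 gn5
      have e3 := key hr1 ⟨i2, e2.symm⟩
      exact hi12 (hc j1 _ _ (e3.symm.trans e2))
    · have hc1 : Cl F j1 (F i0 j2) := (h.cover i2 j1 h4 _).resolve_left gw4
      have e3 := key hr1 hc1
      rw [e3] at gw1
      exact gw1 a2

/-- No path with five undefined cells. -/
theorem Tight.noPath (h : Tight U F) {i0 i1 i2 : R} {j0 j1 j2 : C}
    (h1 : U i0 j0) (h2 : U i1 j0) (h3 : U i1 j1) (h4 : U i2 j1) (h5 : U i2 j2)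
    (hi01 : i0 ≠ i1) (hi12 : i1 ≠ i2)
    (hj01 : j0 ≠ j1) (hj12 : j1 ≠ j2) : False := by
  have ht := h.transpose
  have hi02 : i0 ≠ i2 := by
    rintro rfl
    exact h.g2 h1 h4 h3 h2 hi01 hj01
  have hj02 : j0 ≠ j2 := by
    rintro rfl
    exact h.g2 h2 h3 h4 h5 hi12 hj01
  have P1 := ht.f2 (i := j0) (j := i0) (j' := i1) h1 h2 hi01
  have P2 := h.f2 h2 h3 hj01
  have P3 := ht.f2 (i := j1) (j := i1) (j' := i2) h3 h4 hi12
  have P4 := h.f2 h4 h5 hj12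
  have T1 := h.f3 (i := i1) (i' := i0) (j := j0) (j' := j1) h2 h3 h1 hj01 hi01.symm
  have T2 := h.f3 (i := i1) (i' := i2) (j := j1) (j' := j0) h3 h2 h4 hj01.symm hi12
  have T3 := h.f3 (i := i2) (i' := i1) (j := j1) (j' := j2) h4 h5 h3 hj12 hi12.symm
  have L1a := fun a1 a3 => h.l1 h1 h2 h3 h4 hi01 hi12 hi02 hj01 a1 a3
  have L1b := fun a1 a3 => h.l1 h4 h3 h2 h1 hi12.symm hi01.symm hi02.symm hj01.symm a1 a3
  have L1c := fun a1 a3 => ht.l1 (i0 := j0) (i1 := j1) (i2 := j2) (j0 := i1) (j1 := i2)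
    h2 h3 h4 h5 hj01 hj12 hj02 hi12 a1 a3
  have L1d := fun a1 a3 => ht.l1 (i0 := j2) (i1 := j1) (i2 := j0) (j0 := i2) (j1 := i1)
    h5 h4 h3 h2 hj12.symm hj01.symm hj02.symm hi12.symm a1 a3
  have L2 := fun a1 a2 b4 b5 => h.l2 h1 h2 h3 h4 h5 hi01 hi12 hi02 hj01 hj12 hj02 a1 a2 b4 b5
  have c1 : ∀ (j : C) (a : K), Rw (fun (j : C) (i : R) => F i j) j a ↔ Cl F j a := fun _ _ => Iff.rfl
  have c2 : ∀ (i : R) (a : K), Cl (fun (j : C) (i : R) => F i j) i a ↔ Rw F i a := fun _ _ => Iff.rfl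
  simp only [c1, c2] at P1 P3 L1c L1d
  tauto

end

end Pool.Agent.Helper33.DefNum
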