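import Pool.Agent.Helper33.DefNum.Block

/-!
# Rainbow matchings of the standard one-factorisation
-/

namespace Pool.Agent.Helper33.DefNum

open Finset

section
variable {P : ℕ}

/-- The standard one-factorisation of the complete graph on `ZMod P ∪ {∞}`. -/
def phi : Option (ZMod P) → Option (ZMod P) → ZMod P
  | some x, some y => x + y
  | some x, none => x + x
  | none, some x => x + x
  | none, none => 0

theorem phi_symm (i j : Option (ZMod P)) : phi i j = phi j i := by
  rcases i with _ | x <;> rcases j with _ | y <;> simp [phi, add_comm]

theorem two_inj (hP : P % 2 = 1) {x y : ZMod P} (h : x + x = y + y) : x = y := by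
  have h2 : IsUnit (2 : ZMod P) := by
    have := (ZMod.isUnit_iff_coprime 2 P).2 (by
      rw [Nat.coprime_two_left, Nat.odd_iff]; exact hP)
    exact_mod_cast this
  rw [← two_mul, ← two_mul] at h
  exact h2.mul_left_cancel h

theorem phi_inj (hP : P % 2 = 1) (i j j' : Option (ZMod P)) (hj : j ≠ i) (hj' : j' ≠ i)
    (h : phi i j = phi i j') : j = j' := by
  rcases i with _ | x <;> rcases j with _ | y <;> rcases j' with _ | y' <;>
    simp only [phi] at h
  · exact absurd rfl hj
  · exact absurd rfl hj
  · exact absurd rfl hj'
  · rw [two_inj hP h]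
  · rfl
  · exact absurd (by rw [add_left_cancel h]) hj'
  · exact absurd (by rw [add_left_cancel h]) hj
  · rw [add_left_cancel h]

noncomputable def orient [NeZero P] (i j : Option (ZMod P)) : Bool :=
  decide ((Fintype.equivFin (Option (ZMod P))) i < (Fintype.equivFin (Option (ZMod P))) j)

theorem orient_anti [NeZero P] (i j : Option (ZMod P)) (h : i ≠ j) :
    orient j i = !(orient i j) := by
  unfold orient
  have h2 : (Fintype.equivFin (Option (ZMod P))) i ≠ (Fintype.equivFin (Option (ZMod P))) j :=
    fun e => h ((Fintype.equivFin _).injective e)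
  rcases lt_or_gt_of_ne h2 with h3 | h3
  · simp [h3, not_lt.2 h3.le]
  · simp [h3, not_lt.2 h3.le]

/-- The matching `τ_{z,d}` -/
def tauF (z d e : ZMod P) : Option (ZMod P) → Option (ZMod P)
  | none => some z
  | some x => if (x - z) * e = 0 then none else
      if ((x - z) * e).val % 2 = 1 then some (x + d) else some (x - d)

theorem tauF_some (z d e x : ZMod P) : tauF z d e (some x) = if (x - z) * e = 0 then none else
      if ((x - z) * e).val % 2 = 1 then some (x + d) else some (x - d) := rfl

variable [NeZero P]

theorem val_add_one (hP : P % 2 = 1) (w : ZMod P) (h : w.val % 2 = 1) :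
    (w + 1).val = w.val + 1 := by
  have h1 := ZMod.val_lt w
  have h2 : P ≠ 1 := by
    rintro rfl
    have : w.val < 1 := h1
    omega
  have : (1 : ZMod P).val = 1 := by
    have : Fact (1 < P) := ⟨by have := NeZero.ne P; omega⟩
    exact ZMod.val_one P
  rw [ZMod.val_add_of_lt, this]
  rw [this]
  omega

theorem val_sub_one (w : ZMod P) (h : w ≠ 0) : (w - 1).val = w.val - 1 := by
  have h1 := ZMod.val_lt w
  have h0 : w.val ≠ 0 := by rwa [Ne, ZMod.val_eq_zero]
  have h2 : P ≠ 1 := by
    rintro rfl
    omega
  have : (1 : ZMod P).val = 1 := by
    have : Fact (1 < P) := ⟨by have := NeZero.ne P; omega⟩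
    exact ZMod.val_one P
  rw [ZMod.val_sub, this]
  rw [this]
  omega

variable (hP : P % 2 = 1) {z d e : ZMod P} (hde : d * e = 1)

include hP hde

theorem tauF_inv (i : Option (ZMod P)) : tauF z d e (tauF z d e i) = i := by
  rcases i with _ | x
  · simp [tauF]
  · by_cases h0 : (x - z) * e = 0
    · rw [tauF_some, if_pos h0]
      have h2 : (x - z) * e * d = 0 := by rw [h0, zero_mul]
      have h3 : x - z = 0 := by
        calc x - z = (x - z) * (d * e) := by rw [hde, mul_one]
          _ = (x - z) * e * d := by ring
          _ = 0 := h2
      show some z = some x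
      rw [sub_eq_zero.1 h3]
    · rw [tauF_some, if_neg h0]
      by_cases h1 : ((x - z) * e).val % 2 = 1
      · rw [if_pos h1, tauF_some]
        have h2 : (x + d - z) * e = (x - z) * e + 1 := by
          rw [← hde]; ring
        rw [h2]
        have h3 := val_add_one hP _ h1
        have h4 : (x - z) * e + 1 ≠ 0 := by
          intro h
          rw [h, ZMod.val_zero] at h3
          omega
        rw [if_neg h4, h3, if_neg (by omega)]
        congr 1; ring
      · rw [if_neg h1, tauF_some]
        have h2 : (x - d - z) * e = (x - z) * e - 1 := by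
          rw [← hde]; ring
        rw [h2]
        have h3 := val_sub_one _ h0
        have h5 : ((x - z) * e).val ≠ 0 := by rwa [Ne, ZMod.val_eq_zero]
        have h4 : (x - z) * e - 1 ≠ 0 := by
          intro h
          rw [h, ZMod.val_zero] at h3
          omega
        rw [if_neg h4, h3, if_pos (by omega)]
        congr 1; ring

theorem tauF_ne (hP1 : P ≠ 1) (i : Option (ZMod P)) : tauF z d e i ≠ i := by
  have : Fact (1 < P) := ⟨by have := NeZero.ne P; omega⟩
  have hd : d ≠ 0 := by
    rintro rfl
    rw [zero_mul] at hde
    exact zero_ne_one hde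
  rcases i with _ | x
  · simp [tauF]
  · unfold tauF
    simp only
    split_ifs
    · simp
    · intro h
      have := Option.some.inj h
      exact hd (by simpa using this)
    · intro h
      have := Option.some.inj h
      exact hd (by simpa using this)

theorem tauF_rainbow (hP4 : P % 4 = 1) (i j : Option (ZMod P))
    (h : phi i (tauF z d e i) = phi j (tauF z d e j)) : j = i ∨ j = tauF z d e i := by
  -- no x with 2 (x - z) ± d = 0 of the given parity
  have key1 : ∀ x : ZMod P, ((x - z) * e).val % 2 = 1 → z + z = x + (x + d) → False := by
    intro x hx hz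
    have h1 : ((x - z) * e) + ((x - z) * e) + 1 = 0 := by
      have : x - z + (x - z) + d = 0 := by linear_combination -hz
      calc ((x - z) * e) + ((x - z) * e) + 1 = (x - z + (x - z) + d) * e := by rw [← hde]; ring
        _ = 0 := by rw [this, zero_mul]
    set w := (x - z) * e
    have h2 : ((2 * w.val + 1 : ℕ) : ZMod P) = 0 := by
      push_cast
      rw [ZMod.natCast_zmod_val]
      rw [← h1]; ring
    rw [ZMod.natCast_eq_zero_iff] at h2
    have h3 := ZMod.val_lt w
    obtain ⟨m, hm⟩ := h2
    have hm1 : m = 1 := by
      have : m < 2 := by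
        by_contra hcon
        push Not at hcon
        have : P * 2 ≤ P * m := Nat.mul_le_mul_left P hcon
        omega
      have : m ≠ 0 := by rintro rfl; omega
      omega
    rw [hm1] at hm
    omega
  have key2 : ∀ x : ZMod P, (x - z) * e ≠ 0 → ¬ ((x - z) * e).val % 2 = 1 →
      z + z = x + (x - d) → False := by
    intro x hx0 hx hz
    have h1 : ((x - z) * e) + ((x - z) * e) - 1 = 0 := by
      have : x - z + (x - z) - d = 0 := by linear_combination -hz
      calc ((x - z) * e) + ((x - z) * e) - 1 = (x - z + (x - z) - d) * e := by rw [← hde]; ring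
        _ = 0 := by rw [this, zero_mul]
    set w := (x - z) * e
    have h5 : w.val ≠ 0 := by rwa [Ne, ZMod.val_eq_zero]
    have h2 : ((2 * w.val - 1 : ℕ) : ZMod P) = 0 := by
      rw [Nat.cast_sub (by omega)]
      push_cast
      rw [ZMod.natCast_zmod_val]
      rw [← h1]; ring
    rw [ZMod.natCast_eq_zero_iff] at h2
    have h3 := ZMod.val_lt w
    obtain ⟨m, hm⟩ := h2
    have hm1 : m = 1 := by
      have : m < 2 := by
        by_contra hcon
        push Not at hcon
        have : P * 2 ≤ P * m := Nat.mul_le_mul_left P hcon
        omega
      have : m ≠ 0 := by rintro rfl; omega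
      omega
    rw [hm1] at hm
    omega
  have hz : ∀ x : ZMod P, (x - z) * e = 0 → x = z := by
    intro x h0
    have h3 : x - z = 0 := by
      calc x - z = (x - z) * (d * e) := by rw [hde, mul_one]
        _ = (x - z) * e * d := by ring
        _ = 0 := by rw [h0, zero_mul]
    exact sub_eq_zero.1 h3
  rcases i with _ | x <;> rcases j with _ | y
  · exact Or.inl rfl
  · right
    simp only [tauF] at h ⊢
    split_ifs at h with h1 h2
    · rw [hz y h1]
    · exact (key1 y h2 h).elim
    · exact (key2 y h1 h2 h).elim
  · right
    simp only [tauF] at h ⊢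
    split_ifs at h ⊢ with h1 h2
    · rfl
    · exact (key1 x h2 h.symm).elim
    · exact (key2 x h1 h2 h.symm).elim
  · simp only [tauF] at h ⊢
    split_ifs at h ⊢ with h1 h2 h3 h4 h5 h6 h7 h8
    · left; rw [hz x h1, hz y h2]
    · simp only [phi] at h
      rw [hz x h1] at h
      exact (key1 y h3 h).elim
    · simp only [phi] at h
      rw [hz x h1] at h
      exact (key2 y h2 h3 h).elim
    · simp only [phi] at h
      rw [hz y h5] at h
      exact (key1 x h4 h.symm).elim
    · simp only [phi] at h
      left
      rw [two_inj hP (x := y) (y := x) (by linear_combination -h)]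
    · simp only [phi] at h
      right
      rw [two_inj hP (x := y) (y := x + d) (by linear_combination -h)]
    · simp only [phi] at h
      rw [hz y h7] at h
      exact (key2 x h1 h4 h.symm).elim
    · simp only [phi] at h
      right
      rw [two_inj hP (x := y) (y := x - d) (by linear_combination -h)]
    · simp only [phi] at h
      left
      rw [two_inj hP (x := y) (y := x) (by linear_combination -h)]

theorem tauF_disj_same (hP1 : P ≠ 1) (i : Option (ZMod P)) : tauF z d e i ≠ tauF (z + d) d e i := by
  have : Fact (1 < P) := ⟨by have := NeZero.ne P; omega⟩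
  have hd : d ≠ 0 := by
    rintro rfl
    rw [zero_mul] at hde
    exact zero_ne_one hde
  have hdd : d + d ≠ 0 := by
    intro h
    exact hd (two_inj hP (by rw [h, add_zero]))
  rcases i with _ | x
  · simp only [tauF]
    intro h
    have := Option.some.inj h
    exact hd (by simpa using this)
  · simp only [tauF]
    have h2 : (x - (z + d)) * e = (x - z) * e - 1 := by rw [← hde]; ring
    rw [h2]
    set w := (x - z) * e
    by_cases h0 : w = 0
    · rw [if_pos h0, h0, if_neg (by simp)]
      split_ifs <;> simp
    · rw [if_neg h0]
      by_cases h1 : w - 1 = 0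
      · rw [if_pos h1]
        split_ifs <;> simp
      · rw [if_neg h1, val_sub_one w h0]
        have h5 : w.val ≠ 0 := by rwa [Ne, ZMod.val_eq_zero]
        by_cases h3 : w.val % 2 = 1
        · rw [if_pos h3, if_neg (by omega)]
          intro h
          have := Option.some.inj h
          apply hdd
          linear_combination this
        · rw [if_neg h3, if_pos (by omega)]
          intro h
          have := Option.some.inj h
          apply hdd
          linear_combination -this

theorem tauF_disj_diff {z' d' e' : ZMod P} (hde' : d' * e' = 1) (hz : z ≠ z') (h1 : d ≠ d')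
    (h2 : d + d' ≠ 0) (i : Option (ZMod P)) : tauF z d e i ≠ tauF z' d' e' i := by
  have hz0 : ∀ x : ZMod P, (x - z) * e = 0 → x = z := by
    intro x h0
    have h3 : x - z = 0 := by
      calc x - z = (x - z) * (d * e) := by rw [hde, mul_one]
        _ = (x - z) * e * d := by ring
        _ = 0 := by rw [h0, zero_mul]
    exact sub_eq_zero.1 h3
  have hz0' : ∀ x : ZMod P, (x - z') * e' = 0 → x = z' := by
    intro x h0
    have h3 : x - z' = 0 := by
      calc x - z' = (x - z') * (d' * e') := by rw [hde', mul_one]
        _ = (x - z') * e' * d' := by ring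
        _ = 0 := by rw [h0, zero_mul]
    exact sub_eq_zero.1 h3
  rcases i with _ | x
  · simp only [tauF]
    intro h
    exact hz (Option.some.inj h)
  · simp only [tauF]
    split_ifs with a1 a2 a3 a4 a5 a6
    · exact fun _ => hz (by rw [← hz0 x a1, ← hz0' x a2])
    all_goals intro h
    all_goals try (cases h; done)
    all_goals have h3 := Option.some.inj h
    · exact h1 (by linear_combination h3)
    · exact h2 (by linear_combination h3)
    · exact h2 (by linear_combination -h3)
    · exact h1 (by linear_combination -h3)

end

end Pool.Agent.Helper33.DefNum
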