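import Pool.Agent.Helper33.DefNum.Array

/-!
# Prolongation of arrays along disjoint transversal-like families
-/

namespace Pool.Agent.Helper33.DefNum

open Finset

section Prolong

variable {X K : Type*} {b : ℕ}

/-- `b` pairwise disjoint permutation-like sets of cells, each without repeated entries. -/
structure Marks (b : ℕ) (F : X → X → K) where
  t : Fin b → (X ≃ X)
  disj : ∀ l l' x, t l x = t l' x → l = l'
  inj : ∀ l, Function.Injective (fun x => F x (t l x))

/-- The transposed marks. -/
def Marks.transpose {F : X → X → K} (M : Marks b F) : Marks b (fun y x => F x y) where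
  t := fun l => (M.t l).symm
  disj := by
    intro l l' y h
    apply M.disj l l' ((M.t l).symm y)
    rw [Equiv.apply_symm_apply, h, Equiv.apply_symm_apply]
  inj := by
    intro l y y' h
    have h' : F ((M.t l).symm y) y = F ((M.t l).symm y') y' := h
    have := @M.inj l ((M.t l).symm y) ((M.t l).symm y') (by
      simp only [Equiv.apply_symm_apply]
      exact h')
    exact (M.t l).symm.injective this

open Classical in
/-- The prolonged array. -/
noncomputable def prolong (F : X → X → K) (M : Marks b F) (e : X → X → Bool) :
    X ⊕ Fin b → X ⊕ Fin b → K ⊕ (Bool × Fin b)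
  | .inl x, .inl y => if h : ∃ l, M.t l x = y then .inr (e x y, h.choose) else .inl (F x y)
  | .inl x, .inr l => .inl (F x (M.t l x))
  | .inr l, .inl y => .inl (F ((M.t l).symm y) y)
  | .inr l, .inr l' => .inr (true, l + l')

variable {F : X → X → K} (M : Marks b F) (e : X → X → Bool)

theorem prolong_marked (x : X) (l : Fin b) :
    prolong F M e (.inl x) (.inl (M.t l x)) = .inr (e x (M.t l x), l) := by
  have h : ∃ l', M.t l' x = M.t l x := ⟨l, rfl⟩
  rw [prolong, dif_pos h, M.disj _ _ _ h.choose_spec]

theorem prolong_unmarked (x y : X) (h : ∀ l, M.t l x ≠ y) :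
    prolong F M e (.inl x) (.inl y) = .inl (F x y) := by
  rw [prolong, dif_neg]
  rintro ⟨l, hl⟩
  exact h l hl

theorem prolong_border (x : X) (l : Fin b) :
    prolong F M e (.inl x) (.inr l) = .inl (F x (M.t l x)) := rfl

theorem prolong_border' (y : X) (l : Fin b) :
    prolong F M e (.inr l) (.inl y) = .inl (F ((M.t l).symm y) y) := rfl

theorem prolong_corner (l l' : Fin b) :
    prolong F M e (.inr l) (.inr l') = .inr (true, l + l') := rfl

theorem prolong_transpose (x y : X ⊕ Fin b) :
    prolong (fun y x => F x y) M.transpose (fun y x => e x y) y x = prolong F M e x y := by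
  rcases x with x | l <;> rcases y with y | l'
  · by_cases h : ∃ l, M.t l x = y
    · obtain ⟨l, rfl⟩ := h
      rw [prolong_marked]
      have := prolong_marked M.transpose (fun y x => e x y) (M.t l x) l
      have h2 : M.transpose.t l (M.t l x) = x := (M.t l).symm_apply_apply x
      rw [h2] at this
      exact this
    · push Not at h
      rw [prolong_unmarked M e x y h, prolong_unmarked]
      intro l hl
      have h2 : (M.t l).symm y = x := hl
      apply h l
      rw [← h2, Equiv.apply_symm_apply]
  · rfl
  · rfl
  · rw [prolong_corner, prolong_corner]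
    haveI : NeZero b := ⟨by have := l.2; omega⟩
    rw [add_comm]

theorem prolong_row (hF : ∀ x, Function.Injective (F x)) (x : X ⊕ Fin b) :
    Function.Injective (prolong F M e x) := by
  intro y y' h
  rcases x with x | l
  · rcases y with y | l₁ <;> rcases y' with y' | l₂
    · by_cases h1 : ∃ l, M.t l x = y <;> by_cases h2 : ∃ l, M.t l x = y'
      · obtain ⟨l1, rfl⟩ := h1
        obtain ⟨l2, rfl⟩ := h2
        rw [prolong_marked, prolong_marked] at h
        have := (Prod.mk.inj (Sum.inr.inj h)).2
        rw [this]
      · obtain ⟨l1, rfl⟩ := h1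
        push Not at h2
        rw [prolong_marked, prolong_unmarked M e _ _ h2] at h
        cases h
      · obtain ⟨l1, rfl⟩ := h2
        push Not at h1
        rw [prolong_marked, prolong_unmarked M e _ _ h1] at h
        cases h
      · push Not at h1 h2
        rw [prolong_unmarked M e _ _ h1, prolong_unmarked M e _ _ h2] at h
        rw [hF x (Sum.inl.inj h)]
    · rw [prolong_border] at h
      by_cases h1 : ∃ l, M.t l x = y
      · obtain ⟨l1, rfl⟩ := h1
        rw [prolong_marked] at h
        cases h
      · push Not at h1
        rw [prolong_unmarked M e _ _ h1] at h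
        exact absurd (hF x (Sum.inl.inj h)).symm (h1 l₂)
    · rw [prolong_border] at h
      by_cases h1 : ∃ l, M.t l x = y'
      · obtain ⟨l1, rfl⟩ := h1
        rw [prolong_marked] at h
        cases h
      · push Not at h1
        rw [prolong_unmarked M e _ _ h1] at h
        exact absurd (hF x (Sum.inl.inj h)) (h1 l₁)
    · rw [prolong_border, prolong_border] at h
      rw [M.disj _ _ _ (hF x (Sum.inl.inj h))]
  · rcases y with y | l₁ <;> rcases y' with y' | l₂
    · rw [prolong_border', prolong_border'] at h
      have := M.transpose.inj l (a₁ := y) (a₂ := y') (Sum.inl.inj h)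
      rw [this]
    · rw [prolong_border', prolong_corner] at h
      cases h
    · rw [prolong_border', prolong_corner] at h
      cases h
    · rw [prolong_corner, prolong_corner] at h
      haveI : NeZero b := ⟨by have := l.2; omega⟩
      have := (Prod.mk.inj (Sum.inr.inj h)).2
      rw [add_left_cancel this]

theorem prolong_proper (hF : Proper F) : Proper (prolong F M e) := by
  refine ⟨prolong_row M e hF.1, ?_⟩
  intro y x x' h
  have := prolong_row M.transpose (fun y x => e x y) (fun y => hF.2 y) y (a₁ := x) (a₂ := x')
  rw [prolong_transpose, prolong_transpose] at this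
  exact this h

/-- An old colour of an active row is still present in it. -/
theorem prolong_seen (x y : X) : ∃ c, prolong F M e (.inl x) c = .inl (F x y) ∧
    (c = .inl y ∨ ∃ l, c = .inr l) := by
  by_cases h : ∃ l, M.t l x = y
  · obtain ⟨l, rfl⟩ := h
    exact ⟨.inr l, rfl, Or.inr ⟨l, rfl⟩⟩
  · push Not at h
    exact ⟨.inl y, prolong_unmarked M e x y h, Or.inl rfl⟩

theorem prolong_seen' (x y : X) : ∃ c, prolong F M e c (.inl y) = .inl (F x y) ∧
    (c = .inl x ∨ ∃ l, c = .inr l) := by
  obtain ⟨c, h1, h2⟩ := prolong_seen M.transpose (fun y x => e x y) y x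
  rw [prolong_transpose] at h1
  exact ⟨c, h1, h2⟩

theorem prolong_marked' (y : X) (l : Fin b) :
    prolong F M e (.inl ((M.t l).symm y)) (.inl y) = .inr (e ((M.t l).symm y) y, l) := by
  have := prolong_marked M e ((M.t l).symm y) l
  rwa [Equiv.apply_symm_apply] at this

end Prolong

end Pool.Agent.Helper33.DefNum
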